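import Mathlib
import Pool.Agent.H851.ZD.Lift

/-!
# A simple Lie algebra acting on a space with a chain of small pieces
-/

set_option autoImplicit false
set_option linter.unusedSectionVars false
set_option linter.unusedVariables false

namespace Pool.Agent.H851.IN

open Module
open Pool.Agent.H851.ZD

variable {k : Type} [Field k] {V W : Type} [AddCommGroup V] [Module k V]
  [AddCommGroup W] [Module k W]

/-- the second block -/
def blk2 : End k (V × W) →ₗ[k] End k W where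
  toFun X := LinearMap.snd k V W ∘ₗ X ∘ₗ LinearMap.inr k V W
  map_add' _ _ := by ext; simp
  map_smul' _ _ := by ext; simp

theorem blk2_apply (X : End k (V × W)) (x : W) : blk2 X x = (X (0, x)).2 := rfl

variable [CharZero k] [FiniteDimensional k V] [FiniteDimensional k W]

/-- The data: a Lie algebra `L` of block diagonal matrices, whose first blocks form a simple Lie algebra -/
structure Blocks (L : Submodule k (End k (V × W))) (S : Submodule k (End k V)) : Prop where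
  lie : ∀ X ∈ L, ∀ Y ∈ L, X * Y - Y * X ∈ L
  diag : ∀ Z ∈ L, ∀ x, Z x = (blk Z x.1, blk2 Z x.2)
  map : L.map blk = S
  simple : ∀ I ≤ S, (∀ A ∈ S, ∀ Z ∈ I, A * Z - Z * A ∈ I) → I = ⊥ ∨ I = S
  perfect : ∀ I : Submodule k (End k V), (∀ A ∈ S, ∀ B ∈ S, A * B - B * A ∈ I) → S ≤ I

variable {L : Submodule k (End k (V × W))} {S : Submodule k (End k V)}

theorem Blocks.mul1 (B : Blocks L S) {X Y : End k (V × W)} (hX : X ∈ L) (hY : Y ∈ L) :
    blk (X * Y) = blk X * blk Y := by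
  refine LinearMap.ext fun x => ?_
  rw [Module.End.mul_apply, blk_apply, Module.End.mul_apply, B.diag Y hY, B.diag X hX]

theorem Blocks.mul2 (B : Blocks L S) {X Y : End k (V × W)} (hX : X ∈ L) (hY : Y ∈ L) :
    blk2 (X * Y) = blk2 X * blk2 Y := by
  refine LinearMap.ext fun x => ?_
  rw [Module.End.mul_apply, blk2_apply, Module.End.mul_apply, B.diag Y hY, B.diag X hX]

theorem Blocks.br1 (B : Blocks L S) {X Y : End k (V × W)} (hX : X ∈ L) (hY : Y ∈ L) :
    blk (X * Y - Y * X) = blk X * blk Y - blk Y * blk X := by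
  rw [map_sub, B.mul1 hX hY, B.mul1 hY hX]

theorem Blocks.br2 (B : Blocks L S) {X Y : End k (V × W)} (hX : X ∈ L) (hY : Y ∈ L) :
    blk2 (X * Y - Y * X) = blk2 X * blk2 Y - blk2 Y * blk2 X := by
  rw [map_sub, B.mul2 hX hY, B.mul2 hY hX]

theorem Blocks.eq_ext1 (B : Blocks L S) {Z : End k (V × W)} (hZ : Z ∈ L) (h : blk2 Z = 0) :
    Z = ext1 (blk Z) := by
  refine LinearMap.ext fun x => ?_
  rw [B.diag Z hZ, ext1_apply, h, LinearMap.zero_apply]

/-- an ideal onto `S` -/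
structure Onto (L : Submodule k (End k (V × W))) (S : Submodule k (End k V))
    (I : Submodule k (End k (V × W))) : Prop where
  le : I ≤ L
  onto : S ≤ I.map blk

/-- brackets of two subspaces which are mapped onto `S` -/
theorem Blocks.meet (B : Blocks L S) {I J M : Submodule k (End k (V × W))} (hI : Onto L S I)
    (hJ : Onto L S J) (hM : M ≤ L) (h : ∀ X ∈ I, ∀ Y ∈ J, X * Y - Y * X ∈ M) : Onto L S M := by
  refine ⟨hM, B.perfect _ fun X hX Y hY => ?_⟩
  obtain ⟨X', hX', rfl⟩ := hI.onto hX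
  obtain ⟨Y', hY', rfl⟩ := hJ.onto hY
  exact ⟨_, h X' hX' Y' hY', B.br1 (hI.le hX') (hJ.le hY')⟩

/-- the elements of `L` which map `F` to `F'` -/
def mapsTo (L : Submodule k (End k (V × W))) (F F' : Submodule k W) :
    Submodule k (End k (V × W)) where
  carrier := {Z | Z ∈ L ∧ ∀ x ∈ F, blk2 Z x ∈ F'}
  zero_mem' := ⟨L.zero_mem, fun x _ => by rw [map_zero, LinearMap.zero_apply]; exact F'.zero_mem⟩
  add_mem' := fun {a b} ha hb => ⟨L.add_mem ha.1 hb.1, fun x hx => by
    rw [map_add, LinearMap.add_apply]; exact F'.add_mem (ha.2 x hx) (hb.2 x hx)⟩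
  smul_mem' := fun c a ha => ⟨L.smul_mem c ha.1, fun x hx => by
    rw [map_smul, LinearMap.smul_apply]; exact F'.smul_mem c (ha.2 x hx)⟩

theorem dim_aux {M S' Q : Type} [AddCommGroup M] [Module k M] [FiniteDimensional k M]
    [AddCommGroup S'] [Module k S'] [AddCommGroup Q] [Module k Q] [FiniteDimensional k Q]
    (b : M →ₗ[k] S') (Φ : M →ₗ[k] End k Q) (hker : ∀ z, Φ z = 0 → b z = 0)
    (hs : ∀ s, ∃ z, LinearMap.trace k Q (Φ z) = 0 ∧ b z = s) (e : ℕ) (hQ : finrank k Q = e)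
    (he0 : e ≠ 0) : finrank k S' + 1 ≤ e * e := by
  let M₀ : Submodule k M := LinearMap.ker (LinearMap.trace k Q ∘ₗ Φ)
  have hb : Function.Surjective (b.domRestrict M₀) := by
    intro s
    obtain ⟨z, hz, hzs⟩ := hs s
    exact ⟨⟨z, hz⟩, hzs⟩
  let t : M₀ →ₗ[k] LinearMap.ker (LinearMap.trace k Q) :=
    (Φ.domRestrict M₀).codRestrict _ fun z => z.2
  have h2 := LinearMap.finrank_range_add_finrank_ker (b.domRestrict M₀)
  have h3 := LinearMap.finrank_range_add_finrank_ker t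
  have h4 : finrank k (LinearMap.range (b.domRestrict M₀)) = finrank k S' := by
    rw [LinearMap.range_eq_top.2 hb, finrank_top]
  have h5 : LinearMap.ker t ≤ LinearMap.ker (b.domRestrict M₀) := by
    intro z hz
    rw [LinearMap.mem_ker] at hz ⊢
    exact hker z (congrArg Subtype.val hz)
  have h6 := Submodule.finrank_mono h5
  have h7 := Submodule.finrank_le (LinearMap.range t)
  have h8 := LinearMap.finrank_range_add_finrank_ker (LinearMap.trace k Q)
  have h9 : LinearMap.range (LinearMap.trace k Q) = ⊤ := by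
    rw [LinearMap.range_eq_top]
    intro c
    refine ⟨(c / (e : k)) • 1, ?_⟩
    rw [map_smul, LinearMap.trace_one, hQ, smul_eq_mul, div_mul_cancel₀ _ (Nat.cast_ne_zero.2 he0)]
  rw [h9, finrank_top, finrank_self, Module.finrank_linearMap, hQ] at h8
  omega

/-- **Small pieces.** -/
theorem Blocks.small (B : Blocks L S) {F F' : Submodule k W} (hF : ∀ Z ∈ L, ∀ x ∈ F, blk2 Z x ∈ F)
    (hF' : ∀ Z ∈ L, ∀ x ∈ F', blk2 Z x ∈ F') (e : ℕ) (he : finrank k F = finrank k F' + e)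
    (hle : F' ≤ F) (hS : e * e ≤ finrank k S) : Onto L S (mapsTo L F F') := by
  classical
  refine ⟨fun Z hZ => hZ.1, ?_⟩
  have hideal : ∀ A ∈ S, ∀ Z ∈ (mapsTo L F F').map blk, A * Z - Z * A ∈ (mapsTo L F F').map blk := by
    intro A hA Z hZ
    rw [← B.map] at hA
    obtain ⟨A', hA', rfl⟩ := hA
    obtain ⟨Z', hZ', rfl⟩ := hZ
    refine ⟨A' * Z' - Z' * A', ⟨B.lie _ hA' _ hZ'.1, fun x hx => ?_⟩, B.br1 hA' hZ'.1⟩
    rw [B.br2 hA' hZ'.1, LinearMap.sub_apply, Module.End.mul_apply, Module.End.mul_apply]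
    exact F'.sub_mem (hF' _ hA' _ (hZ'.2 x hx)) (hZ'.2 _ (hF _ hA' x hx))
  have hsub : (mapsTo L F F').map blk ≤ S := by
    rw [← B.map]
    exact Submodule.map_mono fun Z hZ => hZ.1
  rcases B.simple _ hsub hideal with h1 | h1
  swap
  · exact h1.ge
  -- the quotient
  by_cases he0 : e = 0
  · have hFF : F' = F := Submodule.eq_of_le_of_finrank_eq hle (by rw [he, he0, add_zero])
    intro X hX
    rw [← B.map] at hX
    obtain ⟨Z, hZ, rfl⟩ := hX
    refine ⟨Z, ⟨hZ, fun x hx => ?_⟩, rfl⟩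
    rw [hFF]
    exact hF Z hZ x hx
  exfalso
  let Q := F ⧸ (F'.comap F.subtype)
  have hQ : finrank k Q = e := by
    have h2 := Submodule.finrank_quotient_add_finrank (F'.comap F.subtype)
    have h3 : finrank k (F'.comap F.subtype) = finrank k F' :=
      (Submodule.comapSubtypeEquivOfLe hle).finrank_eq
    change finrank k (F ⧸ (F'.comap F.subtype)) = e
    omega
  have hq : ∀ Z : L, F'.comap F.subtype ≤ (F'.comap F.subtype).comap
      ((blk2 (Z : End k (V × W))).restrict (hF Z Z.2)) := by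
    intro Z x hx
    rw [Submodule.mem_comap] at hx
    rw [Submodule.mem_comap, Submodule.mem_comap]
    exact hF' Z Z.2 x hx
  let g : L → End k Q := fun Z => Submodule.mapQ _ _
    ((blk2 (Z : End k (V × W))).restrict (hF Z Z.2)) (hq Z)
  have hg : ∀ (Z : L) (y : F), g Z (Submodule.Quotient.mk y) =
      Submodule.Quotient.mk ⟨blk2 (Z : End k (V × W)) y, hF Z Z.2 y y.2⟩ := fun Z y => rfl
  let Φ : L →ₗ[k] End k Q :=
    { toFun := g
      map_add' := fun Z Z' => by
        refine LinearMap.ext fun x => ?_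
        obtain ⟨y, rfl⟩ := Submodule.Quotient.mk_surjective _ x
        rw [LinearMap.add_apply, hg, hg, hg, ← Submodule.Quotient.mk_add]
        congr 1
      map_smul' := fun c Z => by
        refine LinearMap.ext fun x => ?_
        obtain ⟨y, rfl⟩ := Submodule.Quotient.mk_surjective _ x
        rw [LinearMap.smul_apply, hg, hg, ← Submodule.Quotient.mk_smul]
        congr 1 }
  have hΦ : ∀ (Z : L) (y : F), Φ Z (Submodule.Quotient.mk y) =
      Submodule.Quotient.mk ⟨blk2 (Z : End k (V × W)) y, hF Z Z.2 y y.2⟩ := fun Z y => rfl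
  let tr : L →ₗ[k] k := LinearMap.trace k Q ∘ₗ Φ
  let L₀ : Submodule k (End k (V × W)) := (LinearMap.ker tr).map L.subtype
  have hL₀ : Onto L S L₀ := by
    refine B.meet (I := L) (J := L) ⟨le_rfl, B.map.ge⟩ ⟨le_rfl, B.map.ge⟩ ?_ ?_
    · rintro _ ⟨Z, -, rfl⟩
      exact Z.2
    · intro X hX Y hY
      refine ⟨⟨X * Y - Y * X, B.lie X hX Y hY⟩, ?_, rfl⟩
      have h2 : Φ ⟨X * Y - Y * X, B.lie X hX Y hY⟩ = Φ ⟨X, hX⟩ * Φ ⟨Y, hY⟩ - Φ ⟨Y, hY⟩ * Φ ⟨X, hX⟩ := by
        refine LinearMap.ext fun x => ?_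
        obtain ⟨y, rfl⟩ := Submodule.Quotient.mk_surjective _ x
        rw [LinearMap.sub_apply, Module.End.mul_apply, Module.End.mul_apply, hΦ, hΦ, hΦ, hΦ, hΦ,
          ← Submodule.Quotient.mk_sub]
        congr 1
        apply Subtype.ext
        change blk2 (X * Y - Y * X) (y : W) = _
        rw [B.br2 hX hY]
        rfl
      rw [SetLike.mem_coe, LinearMap.mem_ker]
      change LinearMap.trace k Q (Φ _) = 0
      rw [h2, map_sub, LinearMap.trace_mul_comm, sub_self]
  -- the kernel of `Φ`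
  have hker : ∀ Z : L, Φ Z = 0 → blk (Z : End k (V × W)) = 0 := by
    intro Z hZ
    have h2 : (Z : End k (V × W)) ∈ mapsTo L F F' := by
      refine ⟨Z.2, fun x hx => ?_⟩
      have h3 := LinearMap.congr_fun hZ (Submodule.Quotient.mk ⟨x, hx⟩)
      rw [hΦ, LinearMap.zero_apply, Submodule.Quotient.mk_eq_zero] at h3
      exact h3
    have h3 : blk (Z : End k (V × W)) ∈ (mapsTo L F F').map blk := ⟨_, h2, rfl⟩
    rw [h1, Submodule.mem_bot] at h3
    exact h3
  let b : L →ₗ[k] S := (blk ∘ₗ L.subtype).codRestrict S fun Z => by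
    rw [← B.map]
    exact ⟨_, Z.2, rfl⟩
  have hfin := dim_aux (M := L) (S' := S) b Φ (fun Z hZ => Subtype.ext (hker Z hZ)) (fun X => by
    obtain ⟨_, ⟨Z, hZ, rfl⟩, h2⟩ := hL₀.onto X.2
    exact ⟨Z, hZ, Subtype.ext h2⟩) e hQ he0
  omega

/-- the elements of `L` which map `F (i + t)` to `F i` -/
def down (L : Submodule k (End k (V × W))) (F : ℕ → Submodule k W) (N t : ℕ) :
    Submodule k (End k (V × W)) where
  carrier := {Z | Z ∈ L ∧ ∀ i, i + t ≤ N → ∀ x ∈ F (i + t), blk2 Z x ∈ F i}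
  zero_mem' := ⟨L.zero_mem, fun i _ x _ => by
    rw [map_zero, LinearMap.zero_apply]; exact (F i).zero_mem⟩
  add_mem' := fun {a b} ha hb => ⟨L.add_mem ha.1 hb.1, fun i hi x hx => by
    rw [map_add, LinearMap.add_apply]; exact (F i).add_mem (ha.2 i hi x hx) (hb.2 i hi x hx)⟩
  smul_mem' := fun c a ha => ⟨L.smul_mem c ha.1, fun i hi x hx => by
    rw [map_smul, LinearMap.smul_apply]; exact (F i).smul_mem c (ha.2 i hi x hx)⟩

/-- **The chain.** -/
theorem Blocks.chain (B : Blocks L S) (F : ℕ → Submodule k W) (N : ℕ) (h0 : F 0 = ⊥)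
    (hN : F N = ⊤) (hst : ∀ i ≤ N, ∀ Z ∈ L, ∀ x ∈ F i, blk2 Z x ∈ F i)
    (hp : ∀ i < N, Onto L S (mapsTo L (F (i + 1)) (F i))) :
    ∀ X ∈ S, ext1 X ∈ L := by
  -- all steps at once
  have key : ∀ m ≤ N, ∃ J : Submodule k (End k (V × W)), Onto L S J ∧
      (∀ Z ∈ L, ∀ Y ∈ J, Z * Y - Y * Z ∈ J) ∧
      ∀ Z ∈ J, ∀ i < m, ∀ x ∈ F (i + 1), blk2 Z x ∈ F i := by
    intro m
    induction m with
    | zero => exact fun _ => ⟨L, ⟨le_rfl, B.map.ge⟩, B.lie, fun Z _ i hi => absurd hi (Nat.not_lt_zero i)⟩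
    | succ m ih =>
      intro hm
      obtain ⟨J, hJ1, hJ2, hJ3⟩ := ih (Nat.le_of_succ_le hm)
      have hid : ∀ Z ∈ L, ∀ Y ∈ mapsTo L (F (m + 1)) (F m),
          Z * Y - Y * Z ∈ mapsTo L (F (m + 1)) (F m) := by
        intro Z hZ Y hY
        refine ⟨B.lie _ hZ _ hY.1, fun x hx => ?_⟩
        rw [B.br2 hZ hY.1, LinearMap.sub_apply, Module.End.mul_apply, Module.End.mul_apply]
        exact (F m).sub_mem (hst m (Nat.le_of_succ_le hm) _ hZ _ (hY.2 x hx))
          (hY.2 _ (hst (m + 1) hm _ hZ x hx))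
      refine ⟨J ⊓ mapsTo L (F (m + 1)) (F m), ?_, ?_, ?_⟩
      · refine B.meet hJ1 (hp m hm) (inf_le_left.trans hJ1.le) fun X hX Y hY => ⟨?_, ?_⟩
        · have h1 := hJ2 Y hY.1 X hX
          rw [← neg_sub]
          exact J.neg_mem h1
        · exact hid X (hJ1.le hX) Y hY
      · exact fun Z hZ Y hY => ⟨hJ2 Z hZ Y hY.1, hid Z hZ Y hY.2⟩
      · intro Z hZ i hi x hx
        rcases Nat.lt_succ_iff_lt_or_eq.1 hi with h1 | h1
        · exact hJ3 Z hZ.1 i h1 x hx
        · rw [h1] at hx ⊢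
          exact hZ.2.2 x hx
  have h1 : Onto L S (down L F N 1) := by
    obtain ⟨J, hJ1, hJ2, hJ3⟩ := key N le_rfl
    refine ⟨fun Z hZ => hZ.1, fun X hX => ?_⟩
    obtain ⟨Z, hZ, rfl⟩ := hJ1.onto hX
    exact ⟨Z, ⟨hJ1.le hZ, fun i hi x hx => hJ3 Z hZ i hi x hx⟩, rfl⟩
  have h2 : ∀ t, Onto L S (down L F N (t + 1)) := by
    intro t
    induction t with
    | zero => exact h1
    | succ t ih =>
      refine B.meet h1 ih (fun Z hZ => hZ.1) fun X hX Y hY => ?_
      refine ⟨B.lie _ hX.1 _ hY.1, fun i hi x hx => ?_⟩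
      rw [B.br2 hX.1 hY.1, LinearMap.sub_apply, Module.End.mul_apply, Module.End.mul_apply]
      refine (F i).sub_mem (hX.2 i (by omega) _ (hY.2 (i + 1) (by omega) x ?_))
        (hY.2 i (by omega) _ (hX.2 (i + (t + 1)) (by omega) x ?_))
      · rw [show i + 1 + (t + 1) = i + (t + 1 + 1) by omega]
        exact hx
      · rw [show i + (t + 1) + 1 = i + (t + 1 + 1) by omega]
        exact hx
  intro X hX
  rcases Nat.eq_zero_or_pos N with hN0 | hNpos
  · -- `W = 0`
    have h3 : (⊤ : Submodule k W) = ⊥ := by rw [← hN, hN0, h0]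
    rw [← B.map] at hX
    obtain ⟨Z, hZ, rfl⟩ := hX
    have h4 : blk2 Z = 0 := by
      refine LinearMap.ext fun x => ?_
      have h5 : blk2 Z x ∈ (⊤ : Submodule k W) := trivial
      rw [h3, Submodule.mem_bot] at h5
      rw [h5, LinearMap.zero_apply]
    rw [← B.eq_ext1 hZ h4]
    exact hZ
  · obtain ⟨t, rfl⟩ : ∃ t, N = t + 1 := ⟨N - 1, by omega⟩
    obtain ⟨Z, hZ, rfl⟩ := (h2 t).onto hX
    have h4 : blk2 Z = 0 := by
      refine LinearMap.ext fun x => ?_
      have h5 := hZ.2 0 (by omega) x (by rw [zero_add, hN]; trivial)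
      rw [h0, Submodule.mem_bot] at h5
      rw [h5, LinearMap.zero_apply]
    rw [← B.eq_ext1 hZ.1 h4]
    exact hZ.1

end Pool.Agent.H851.IN
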