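import Mathlib

/-!
# Ideals of the orthogonal Lie algebra of a diagonal form
-/

set_option autoImplicit false
set_option linter.unusedSectionVars false

namespace Pool.Agent.H851.IN

open Matrix Finset

variable {k : Type} [Field k] [CharZero k] {ι : Type} [Fintype ι] [DecidableEq ι] (a : ι → k)

/-- the orthogonal Lie algebra of the diagonal form `a` -/
def soM : Submodule k (Matrix ι ι k) where
  carrier := {M | ∀ i j, a i * M i j + a j * M j i = 0}
  zero_mem' := fun i j => by simp
  add_mem' := fun {A B} hA hB i j => by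
    have h1 := hA i j
    have h2 := hB i j
    simp only [Matrix.add_apply]
    linear_combination h1 + h2
  smul_mem' := fun c A hA i j => by
    have h1 := hA i j
    simp only [Matrix.smul_apply, smul_eq_mul]
    linear_combination c * h1

/-- the elementary skew matrices -/
def El (p q : ι) : Matrix ι ι k := fun i j =>
  (if i = p ∧ j = q then a q else 0) - (if i = q ∧ j = p then a p else 0)

theorem mem_soM {M : Matrix ι ι k} : M ∈ soM a ↔ ∀ i j, a i * M i j + a j * M j i = 0 := Iff.rfl

theorem El_mem (p q : ι) : El a p q ∈ soM a := by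
  intro i j
  simp only [El]
  by_cases h1 : i = p <;> by_cases h2 : j = q <;> by_cases h3 : i = q <;> by_cases h4 : j = p <;>
    simp_all <;> ring

theorem El_mul (p q : ι) (M : Matrix ι ι k) (i j : ι) : (El a p q * M) i j =
    (if i = p then a q * M q j else 0) - (if i = q then a p * M p j else 0) := by
  simp only [Matrix.mul_apply, El, sub_mul, ite_mul, zero_mul, Finset.sum_sub_distrib, ite_and]
  congr 1
  · by_cases h : i = p <;> simp [h]
  · by_cases h : i = q <;> simp [h]

theorem mul_El (p q : ι) (M : Matrix ι ι k) (i j : ι) : (M * El a p q) i j =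
    (if j = q then a q * M i p else 0) - (if j = p then a p * M i q else 0) := by
  simp only [Matrix.mul_apply, El, mul_sub, mul_ite, mul_zero, Finset.sum_sub_distrib, ite_and]
  congr 1
  · by_cases h : j = q <;> simp [h, mul_comm]
  · by_cases h : j = p <;> simp [h, mul_comm]

variable {a}

theorem so_diag (ha : ∀ i, a i ≠ 0) {M : Matrix ι ι k} (hM : M ∈ soM a) (i : ι) : M i i = 0 := by
  have h1 := hM i i
  have h2 : 2 * a i * M i i = 0 := by linear_combination h1
  exact (mul_eq_zero.1 h2).resolve_left (mul_ne_zero two_ne_zero (ha i))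

theorem so_swap (ha : ∀ i, a i ≠ 0) {M : Matrix ι ι k} (hM : M ∈ soM a) (i j : ι) :
    M j i = -(a i / a j) * M i j := by
  have h1 := hM i j
  field_simp [ha j]
  linear_combination h1

/-- keep the entries with exactly one index in `{p, q}` -/
def keep (p q : ι) (M : Matrix ι ι k) : Matrix ι ι k := fun i j =>
  if (i = p ∨ i = q) ↔ (j = p ∨ j = q) then 0 else M i j

theorem keep_eq (ha : ∀ i, a i ≠ 0) {p q : ι} (hpq : p ≠ q) {M : Matrix ι ι k} (hM : M ∈ soM a) :
    El a p q * (El a p q * M - M * El a p q) - (El a p q * M - M * El a p q) * El a p q =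
      (-(a p * a q)) • keep p q M := by
  ext i j
  have e1 := so_swap ha hM p q
  have e2 := so_diag ha hM p
  have e3 := so_diag ha hM q
  have hp := ha p
  have hq := ha q
  rw [Matrix.sub_apply, El_mul, mul_El]
  simp only [Matrix.sub_apply, El_mul, mul_El, Matrix.smul_apply, smul_eq_mul, keep]
  by_cases h1 : i = p
  · subst h1
    by_cases h2 : j = i
    · subst h2
      simp [hpq, hpq.symm, e2, e3]
    · by_cases h3 : j = q
      · subst h3
        simp [hpq, hpq.symm, h2, e1]
        field_simp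
        ring
      · simp [hpq, hpq.symm, h2, h3]
        ring
  · by_cases h1' : i = q
    · subst h1'
      by_cases h2 : j = p
      · subst h2
        simp [hpq, hpq.symm, h1, e1]
        field_simp
        ring
      · by_cases h3 : j = i
        · subst h3
          simp [hpq, hpq.symm, h1, e2, e3]
        · simp [hpq, hpq.symm, h1, h2, h3]
          ring
    · by_cases h2 : j = p
      · subst h2
        simp [hpq, hpq.symm, h1, h1']
        ring
      · by_cases h3 : j = q
        · subst h3
          simp [hpq, hpq.symm, h1, h1']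
          ring
        · simp [h1, h1', h2, h3]


theorem keep_mem {I : Submodule k (Matrix ι ι k)} (ha : ∀ i, a i ≠ 0) (hI : I ≤ soM a)
    (hid : ∀ A ∈ soM a, ∀ Z ∈ I, A * Z - Z * A ∈ I) {p q : ι} (hpq : p ≠ q) {M : Matrix ι ι k}
    (hM : M ∈ I) : keep p q M ∈ I := by
  have h1 := hid _ (El_mem a p q) _ (hid _ (El_mem a p q) _ hM)
  rw [keep_eq ha hpq (hI hM)] at h1
  have h2 := I.smul_mem (-(a p * a q))⁻¹ h1
  rwa [smul_smul, inv_mul_cancel₀ (neg_ne_zero.2 (mul_ne_zero (ha p) (ha q))), one_smul] at h2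

/-- the number of nonzero entries -/
noncomputable def supp (M : Matrix ι ι k) : Finset (ι × ι) := by
  classical exact Finset.univ.filter fun x => M x.1 x.2 ≠ 0

theorem mem_supp {M : Matrix ι ι k} {x : ι × ι} : x ∈ supp M ↔ M x.1 x.2 ≠ 0 := by
  simp [supp]

theorem El_self (ha : ∀ i, a i ≠ 0) {M : Matrix ι ι k} (hM : M ∈ soM a) {p q : ι} (hpq : p ≠ q)
    (h0 : ∀ i j, M i j ≠ 0 → (i = p ∧ j = q) ∨ (i = q ∧ j = p)) :
    M = (M p q / a q) • El a p q := by
  ext i j
  rw [Matrix.smul_apply, smul_eq_mul, El]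
  have hq := ha q
  have hp := ha p
  by_cases h1 : i = p ∧ j = q
  · obtain ⟨rfl, rfl⟩ := h1
    simp [hpq]
    field_simp
  · by_cases h2 : i = q ∧ j = p
    · obtain ⟨rfl, rfl⟩ := h2
      have e1 := so_swap ha hM j i
      simp [hpq.symm]
      rw [e1]
      field_simp
    · rw [if_neg h1, if_neg h2, sub_self, mul_zero]
      by_contra h3
      rcases h0 i j h3 with h4 | h4
      · exact h1 h4
      · exact h2 h4

/-- a nonzero ideal contains an elementary matrix -/
theorem exists_El (hc : Fintype.card ι ≠ 4) (ha : ∀ i, a i ≠ 0) {I : Submodule k (Matrix ι ι k)}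
    (hI : I ≤ soM a) (hid : ∀ A ∈ soM a, ∀ Z ∈ I, A * Z - Z * A ∈ I) (h0 : I ≠ ⊥) :
    ∃ p q, p ≠ q ∧ El a p q ∈ I := by
  obtain ⟨Z₀, hZ₀, hZ₀0⟩ := (Submodule.ne_bot_iff I).1 h0
  have hex : ∃ m, ∃ Z ∈ I, Z ≠ 0 ∧ (supp Z).card = m := ⟨_, Z₀, hZ₀, hZ₀0, rfl⟩
  classical
  obtain ⟨Z, hZ, hZ0, hm⟩ := Nat.find_spec hex
  have hmin : ∀ Y ∈ I, Y ≠ 0 → (supp Z).card ≤ (supp Y).card := by
    intro Y hY hY0
    rw [hm]
    exact Nat.find_min' hex ⟨Y, hY, hY0, rfl⟩
  have hZs := hI hZ
  have hpq : ∃ p q, Z p q ≠ 0 := by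
    by_contra h1
    push Not at h1
    exact hZ0 (Matrix.ext h1)
  obtain ⟨p, q, hpq⟩ := hpq
  have hne : p ≠ q := by
    rintro rfl
    exact hpq (so_diag ha hZs p)
  -- a projection which kills an entry but not all
  have hkill : ∀ r s i j, r ≠ s → ¬((i = r ∨ i = s) ↔ (j = r ∨ j = s)) → Z i j ≠ 0 →
      ∀ i' j', ((i' = r ∨ i' = s) ↔ (j' = r ∨ j' = s)) → Z i' j' = 0 := by
    intro r s i j hrs hij hZij i' j' hij'
    by_contra hcon
    have h1 := hmin _ (keep_mem ha hI hid hrs hZ) (by
      intro h2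
      have h3 := congrFun (congrFun h2 i) j
      rw [keep, if_neg hij] at h3
      exact hZij h3)
    have h2 : supp (keep r s Z) ⊂ supp Z := by
      rw [Finset.ssubset_iff_of_subset]
      · refine ⟨(i', j'), mem_supp.2 hcon, ?_⟩
        rw [mem_supp, not_not]
        exact if_pos hij'
      · intro x hx
        rw [mem_supp] at hx ⊢
        intro h3
        apply hx
        rw [keep]
        split_ifs
        · rfl
        · exact h3
    exact absurd h1 (not_le.2 (Finset.card_lt_card h2))
  refine ⟨p, q, hne, ?_⟩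
  have hall : ∀ i j, Z i j ≠ 0 → (i = p ∧ j = q) ∨ (i = q ∧ j = p) := by
    intro i j hij
    have hijne : i ≠ j := by
      rintro rfl
      exact hij (so_diag ha hZs i)
    -- one common index
    have hone : ∀ i j, i ≠ j → Z i j ≠ 0 → i = p → j = q := by
      rintro i j hijne hij rfl
      by_contra hjq
      refine hij (hkill i j i q hijne ?_ hpq i j (by simp))
      simp [hne.symm, Ne.symm hjq]
    have htwo : ∀ i j, i ≠ j → Z i j ≠ 0 → j = q → i = p := by
      rintro i j hijne hij rfl
      by_contra hjq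
      refine hij (hkill i j p j hijne ?_ hpq i j (by simp))
      simp [hne, Ne.symm hjq]
    have hZji : ∀ i j, Z i j ≠ 0 → Z j i ≠ 0 := by
      intro i j h1
      rw [so_swap ha hZs i j]
      exact mul_ne_zero (neg_ne_zero.2 (div_ne_zero (ha i) (ha j))) h1
    by_cases h1 : i = p
    · exact Or.inl ⟨h1, hone i j hijne hij h1⟩
    by_cases h2 : j = q
    · exact absurd (htwo i j hijne hij h2) h1
    by_cases h3 : j = p
    · exact Or.inr ⟨hone j i hijne.symm (hZji i j hij) h3, h3⟩
    by_cases h4 : i = q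
    · exact absurd (htwo j i hijne.symm (hZji i j hij) h4) h3
    -- disjoint
    exfalso
    have h5 : ∃ r, r ≠ p ∧ r ≠ q ∧ r ≠ i ∧ r ≠ j := by
      by_contra hcon
      push Not at hcon
      apply hc
      have h6 : (Finset.univ : Finset ι) = {p, q, i, j} := by
        ext r
        simp only [Finset.mem_univ, Finset.mem_insert, Finset.mem_singleton, true_iff]
        by_contra h7
        push Not at h7
        exact h7.2.2.2 (hcon r h7.1 h7.2.1 h7.2.2.1)
      rw [← Finset.card_univ, h6]
      have g1 : i ∉ ({j} : Finset ι) := by simpa using hijne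
      have g2 : q ∉ ({i, j} : Finset ι) := by simpa using ⟨Ne.symm h4, Ne.symm h2⟩
      have g3 : p ∉ ({q, i, j} : Finset ι) := by
        simpa using ⟨hne, Ne.symm h1, Ne.symm h3⟩
      rw [Finset.card_insert_of_notMem g3, Finset.card_insert_of_notMem g2,
        Finset.card_insert_of_notMem g1, Finset.card_singleton]
    obtain ⟨r, r1, r2, r3, r4⟩ := h5
    refine hij (hkill p r p q (Ne.symm r1) ?_ hpq i j ?_)
    · simp [hne.symm, Ne.symm r2]
    · simp [h1, h3, Ne.symm r3, Ne.symm r4]
  have h6 := El_self ha hZs hne hall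
  have hc0 : Z p q / a q ≠ 0 := div_ne_zero hpq (ha q)
  generalize Z p q / a q = c at h6 hc0
  have h7 : El a p q = c⁻¹ • Z := by
    rw [h6, smul_smul, inv_mul_cancel₀ hc0, one_smul]
  rw [h7]
  exact I.smul_mem _ hZ

theorem El_bracket (p q r : ι) (hpr : p ≠ r) (hqr : q ≠ r) (hpq : p ≠ q) :
    El a p q * El a q r - El a q r * El a p q = a q • El a p r := by
  ext i j
  rw [Matrix.sub_apply, El_mul, mul_El, Matrix.smul_apply, smul_eq_mul]
  simp only [El]
  by_cases h1 : i = p <;> by_cases h2 : i = q <;> by_cases h3 : i = r <;> by_cases h4 : j = p <;>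
    by_cases h5 : j = q <;> by_cases h6 : j = r <;> simp_all; ring

theorem El_swap (p q : ι) : El a q p = -El a p q := by
  ext i j
  simp only [El, Matrix.neg_apply]
  ring

theorem so_span (ha : ∀ i, a i ≠ 0) {M : Matrix ι ι k} (hM : M ∈ soM a) :
    M = (2 : k)⁻¹ • ∑ p, ∑ q, (M p q / a q) • El a p q := by
  ext i j
  have h1 := so_swap ha hM i j
  have hi := ha i
  have hj := ha j
  rw [Matrix.smul_apply, Matrix.sum_apply]
  simp only [Matrix.sum_apply, Matrix.smul_apply, smul_eq_mul, El, mul_sub, mul_ite, mul_zero,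
    Finset.sum_sub_distrib, ite_and]
  simp
  rw [h1]
  field_simp
  ring

theorem all_El {I : Submodule k (Matrix ι ι k)} (ha : ∀ i, a i ≠ 0)
    (hid : ∀ A ∈ soM a, ∀ Z ∈ I, A * Z - Z * A ∈ I) {p q : ι} (hpq : p ≠ q) (h : El a p q ∈ I)
    (i j : ι) : El a i j ∈ I := by
  have step : ∀ p q r, p ≠ q → q ≠ r → p ≠ r → El a p q ∈ I → El a p r ∈ I := by
    intro p q r hpq hqr hpr h1
    have h2 := hid _ (El_mem a q r) _ h1
    have h3 := El_bracket (a := a) p q r hpr hqr hpq
    have h4 : El a p r = (-(a q)⁻¹) • (El a q r * El a p q - El a p q * El a q r) := by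
      rw [← neg_sub, h3, smul_neg, neg_smul, neg_neg, smul_smul, inv_mul_cancel₀ (ha q), one_smul]
    rw [h4]
    exact I.smul_mem _ h2
  have hsw : ∀ p q, El a p q ∈ I → El a q p ∈ I := by
    intro p q h1
    rw [El_swap]
    exact I.neg_mem h1
  have hz : ∀ i, El a i i ∈ I := by
    intro i
    have : El a i i = 0 := by
      ext x y
      simp only [El, Matrix.zero_apply, sub_self]
    rw [this]
    exact I.zero_mem
  have hp : ∀ j, El a p j ∈ I := by
    intro j
    by_cases h1 : j = p
    · rw [h1]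
      exact hz p
    by_cases h2 : j = q
    · rw [h2]
      exact h
    exact step p q j hpq (Ne.symm h2) (Ne.symm h1) h
  by_cases h1 : i = p
  · rw [h1]
    exact hp j
  by_cases h2 : j = p
  · rw [h2]
    exact hsw _ _ (hp i)
  by_cases h3 : i = j
  · rw [h3]
    exact hz j
  exact hsw _ _ (step j p i h2 (Ne.symm h1) (Ne.symm h3) (hsw _ _ (hp j)))

/-- **The orthogonal Lie algebra is simple** (or one-dimensional, or zero) if the dimension is not four. -/
theorem so_simple (hc : Fintype.card ι ≠ 4) (ha : ∀ i, a i ≠ 0) {I : Submodule k (Matrix ι ι k)}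
    (hI : I ≤ soM a) (hid : ∀ A ∈ soM a, ∀ Z ∈ I, A * Z - Z * A ∈ I) : I = ⊥ ∨ I = soM a := by
  by_cases h0 : I = ⊥
  · exact Or.inl h0
  right
  obtain ⟨p, q, hpq, h⟩ := exists_El hc ha hI hid h0
  refine le_antisymm hI fun M hM => ?_
  rw [so_span ha hM]
  exact I.smul_mem _ (Submodule.sum_mem _ fun i _ => Submodule.sum_mem _ fun j _ =>
    I.smul_mem _ (all_El ha hid hpq h i j))

/-- the orthogonal Lie algebra is perfect in dimension at least three -/
theorem so_perfect (hc : 3 ≤ Fintype.card ι) (ha : ∀ i, a i ≠ 0) {I : Submodule k (Matrix ι ι k)}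
    (hI : ∀ A ∈ soM a, ∀ B ∈ soM a, A * B - B * A ∈ I) : soM a ≤ I := by
  intro M hM
  rw [so_span ha hM]
  refine I.smul_mem _ (Submodule.sum_mem _ fun p _ => Submodule.sum_mem _ fun r _ =>
    I.smul_mem _ ?_)
  by_cases hpr : p = r
  · subst hpr
    have : El a p p = 0 := by
      ext x y
      simp only [El, Matrix.zero_apply, sub_self]
    rw [this]
    exact I.zero_mem
  have h5 : ∃ q, q ≠ p ∧ q ≠ r := by
    by_contra hcon
    push Not at hcon
    have h6 : (Finset.univ : Finset ι) = {p, r} := by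
      ext x
      simp only [Finset.mem_univ, Finset.mem_insert, Finset.mem_singleton, true_iff]
      by_contra h7
      push Not at h7
      exact h7.2 (hcon x h7.1)
    rw [← Finset.card_univ, h6] at hc
    have := Finset.card_insert_le p {r}
    rw [Finset.card_singleton] at this
    omega
  obtain ⟨q, hqp, hqr⟩ := h5
  have h3 := El_bracket (a := a) p q r hpr hqr (Ne.symm hqp)
  have h4 : El a p r = (a q)⁻¹ • (El a p q * El a q r - El a q r * El a p q) := by
    rw [h3, smul_smul, inv_mul_cancel₀ (ha q), one_smul]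
  rw [h4]
  exact I.smul_mem _ (hI _ (El_mem a p q) _ (El_mem a q r))

theorem card_lt (d : ℕ) : 2 * Fintype.card {x : Fin d × Fin d // x.1 < x.2} = d * (d - 1) := by
  have h1 : Fintype.card {x : Fin d × Fin d // x.1 < x.2} = ∑ j : Fin d, (j : ℕ) := by
    rw [Fintype.card_subtype, ← Finset.univ_product_univ, Finset.card_filter, Finset.sum_product_right]
    refine Finset.sum_congr rfl fun j _ => ?_
    rw [← Finset.card_filter, ← Fin.card_Iio j]
    congr 1
    ext i
    simp
  rw [h1, Fin.sum_univ_eq_sum_range (fun i => i), mul_comm, Finset.sum_range_id_mul_two]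

theorem so_dim {d : ℕ} {a : Fin d → k} (ha : ∀ i, a i ≠ 0) :
    d * (d - 1) ≤ 2 * Module.finrank k (soM a) := by
  let f : soM a →ₗ[k] ({x : Fin d × Fin d // x.1 < x.2} → k) :=
    { toFun := fun M x => (M : Matrix (Fin d) (Fin d) k) x.1.1 x.1.2
      map_add' := fun _ _ => rfl
      map_smul' := fun _ _ => rfl }
  have hf : Function.Surjective f := by
    intro g
    refine ⟨∑ x, (g x / a x.1.2) • ⟨El a x.1.1 x.1.2, El_mem a _ _⟩, ?_⟩
    rw [map_sum]
    funext y
    rw [Finset.sum_apply, Finset.sum_eq_single y]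
    · rw [map_smul, Pi.smul_apply, smul_eq_mul]
      have h1 : f ⟨El a y.1.1 y.1.2, El_mem a _ _⟩ y = a y.1.2 := by
        change El a y.1.1 y.1.2 y.1.1 y.1.2 = _
        have := y.2.ne
        simp [El, this]
      rw [h1, div_mul_cancel₀ _ (ha _)]
    · intro x _ hxy
      rw [map_smul, Pi.smul_apply, smul_eq_mul]
      have h1 : f ⟨El a x.1.1 x.1.2, El_mem a _ _⟩ y = 0 := by
        change El a x.1.1 x.1.2 y.1.1 y.1.2 = 0
        rw [El, if_neg, if_neg, sub_self]
        · rintro ⟨h2, h3⟩
          have h4 := x.2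
          have h5 := y.2
          rw [h2, h3] at h5
          exact lt_asymm h4 h5
        · rintro ⟨h2, h3⟩
          exact hxy (Subtype.ext (Prod.ext h2.symm h3.symm))
      rw [h1, mul_zero]
    · intro h
      exact absurd (Finset.mem_univ _) h
  have h1 := LinearMap.finrank_le_finrank_of_surjective hf
  rw [Module.finrank_fintype_fun_eq_card] at h1
  have h2 := card_lt d
  omega

end Pool.Agent.H851.IN
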