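import Mathlib
import Pool.Agent.H851.ZD.Nullity
import Pool.Agent.H851.IN.Som

/-!
# The Lie algebra of a representation of K3 type with scalar Tate endomorphisms
-/

set_option autoImplicit false
set_option linter.unusedSectionVars false
set_option linter.unusedVariables false

namespace Pool.Agent.H851.IN

open Matrix Finset Module
open NumberField IsDedekindDomain Polynomial
open Pool.Agent.H851.K3 Pool.Agent.H851.KT Pool.Agent.H851.TT Pool.Agent.H851.ZD
open Pool.Agent.NH56.HY (GK tw tw_apply chi_ne)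

/-- `L` is the orthogonal Lie algebra of the subspace `T` with the orthogonal basis given by the columns of
`U`, and with the norms `a` -/
structure Frame {k : Type} [Field k] [CharZero k] {n ι : Type} [Fintype n] [DecidableEq n] [Fintype ι]
    [DecidableEq ι] (q : Matrix n n k) (L : Submodule k (Matrix n n k)) (T : Submodule k (n → k))
    (a : ι → k) (U : Matrix n ι k) (W : Matrix ι n k) : Prop where
  ne : ∀ i, a i ≠ 0
  one : W * U = 1
  mem : ∀ X, X ∈ L ↔ ∃ M ∈ soM a, X = U * M * W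
  pair : ∀ x i, (W *ᵥ x) i = (a i)⁻¹ * form q (U *ᵥ Pi.single i 1) x
  left : ∀ x, U *ᵥ x ∈ T
  right : ∀ x ∈ T, U *ᵥ (W *ᵥ x) = x

section

variable {k : Type} [Field k] [CharZero k] {n ι : Type} [Fintype n] [DecidableEq n] [Fintype ι]
    [DecidableEq ι] {q : Matrix n n k} {L : Submodule k (Matrix n n k)} {T : Submodule k (n → k)}
    {a : ι → k} {U : Matrix n ι k} {W : Matrix ι n k}

theorem Frame.mul (F : Frame q L T a U W) (M N : Matrix ι ι k) :
    U * M * W * (U * N * W) = U * (M * N) * W := by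
  have h1 : U * M * W * (U * N * W) = U * M * (W * U) * N * W := by
    simp only [Matrix.mul_assoc]
  rw [h1, F.one, Matrix.mul_one]
  simp only [Matrix.mul_assoc]

theorem Frame.inj (F : Frame q L T a U W) {M N : Matrix ι ι k} (h : U * M * W = U * N * W) :
    M = N := by
  have h1 : ∀ M : Matrix ι ι k, W * (U * M * W) * U = M := by
    intro M
    have h2 : W * (U * M * W) * U = (W * U) * M * (W * U) := by simp only [Matrix.mul_assoc]
    rw [h2, F.one, Matrix.one_mul, Matrix.mul_one]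
  rw [← h1 M, h, h1]

/-- the matrices on `T` as endomorphisms of `V` -/
def emb (U : Matrix n ι k) (W : Matrix ι n k) : Matrix ι ι k →ₗ[k] Matrix n n k where
  toFun M := U * M * W
  map_add' M N := by rw [Matrix.mul_add, Matrix.add_mul]
  map_smul' c M := by rw [Matrix.mul_smul, Matrix.smul_mul, RingHom.id_apply]

theorem emb_apply (M : Matrix ι ι k) : emb U W M = U * M * W := rfl

theorem Frame.eq (F : Frame q L T a U W) : L = (soM a).map (emb U W) := by
  ext X
  rw [F.mem, Submodule.mem_map]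
  exact ⟨fun ⟨M, h1, h2⟩ => ⟨M, h1, h2.symm⟩, fun ⟨M, h1, h2⟩ => ⟨M, h1, h2.symm⟩⟩

theorem Frame.bracket (F : Frame q L T a U W) (M N : Matrix ι ι k) :
    emb U W M * emb U W N - emb U W N * emb U W M = emb U W (M * N - N * M) := by
  rw [emb_apply, emb_apply, F.mul, F.mul, map_sub, emb_apply, emb_apply]

/-- `L` is simple -/
theorem Frame.simple (F : Frame q L T a U W) (hc : Fintype.card ι ≠ 4)
    {I : Submodule k (Matrix n n k)} (hI : I ≤ L) (hid : ∀ A ∈ L, ∀ Z ∈ I, A * Z - Z * A ∈ I) :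
    I = ⊥ ∨ I = L := by
  have h1 := so_simple (a := a) hc F.ne (I := I.comap (emb U W)) (by
      intro M hM
      obtain ⟨N, hN, h2⟩ := (F.mem _).1 (hI hM)
      rw [F.inj h2]
      exact hN)
    (by
      intro A hA Z hZ
      rw [Submodule.mem_comap] at hZ ⊢
      rw [← F.bracket]
      exact hid _ ((F.mem _).2 ⟨A, hA, rfl⟩) _ hZ)
  rcases h1 with h1 | h1
  · left
    rw [eq_bot_iff]
    intro X hX
    obtain ⟨M, hM, rfl⟩ := (F.mem _).1 (hI hX)
    have h2 : M ∈ I.comap (emb U W) := hX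
    rw [h1] at h2
    rw [Submodule.mem_bot] at h2 ⊢
    rw [h2]
    simp
  · right
    refine le_antisymm hI fun X hX => ?_
    obtain ⟨M, hM, rfl⟩ := (F.mem _).1 hX
    rw [← h1] at hM
    exact hM

theorem Frame.perfect (F : Frame q L T a U W) (hc : 3 ≤ Fintype.card ι)
    {I : Submodule k (Matrix n n k)} (hI : ∀ A ∈ L, ∀ B ∈ L, A * B - B * A ∈ I) : L ≤ I := by
  have h1 := so_perfect (a := a) hc F.ne (I := I.comap (emb U W)) (by
      intro A hA B hB
      rw [Submodule.mem_comap, ← F.bracket]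
      exact hI _ ((F.mem _).2 ⟨A, hA, rfl⟩) _ ((F.mem _).2 ⟨B, hB, rfl⟩))
  intro X hX
  obtain ⟨M, hM, rfl⟩ := (F.mem _).1 hX
  exact h1 hM

theorem Frame.dim {d : ℕ} {a : Fin d → k} {U : Matrix n (Fin d) k} {W : Matrix (Fin d) n k}
    (F : Frame q L T a U W) : d * (d - 1) ≤ 2 * finrank k L := by
  refine (so_dim F.ne).trans (Nat.mul_le_mul_left 2 ?_)
  rw [F.eq]
  refine (LinearMap.finrank_le_finrank_of_injective (f := (emb U W).submoduleMap (soM a)) ?_)
  intro x y hxy
  apply Subtype.ext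
  exact F.inj (congrArg Subtype.val hxy)

end

section

variable {K : Type} [Field K] [NumberField K] {ℓ : ℕ} [hℓ : Fact ℓ.Prime] {n : Type}
    [Fintype n] [DecidableEq n] {q : Matrix n n ℚ_[ℓ]} {S : Finset ℕ} {χ : GK K →* ℚ_[ℓ]}
    {Pol : HeightOneSpectrum (𝓞 K) → ℤ[X]} {ρ : GK K →* Matrix n n ℚ_[ℓ]}

theorem exists_frame (h : IsK3Type q S χ Pol ρ) (hss : Semisimple ρ) (hc : ScalarEnds q χ ρ) :
    ∃ (a : Fin (finrank ℚ_[ℓ] (orth q (tate χ ρ))) → ℚ_[ℓ])
      (U : Matrix n (Fin (finrank ℚ_[ℓ] (orth q (tate χ ρ)))) ℚ_[ℓ])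
      (W : Matrix (Fin (finrank ℚ_[ℓ] (orth q (tate χ ρ)))) n ℚ_[ℓ]),
      Frame q (tateLie χ ρ) (orth q (tate χ ρ)) a U W := by
  obtain ⟨P, hP1, hP2, hP3, hP4⟩ := exists_P h hss
  have hs := form_symm h.symm
  obtain ⟨e, he1, he2, he3, he4⟩ := exists_orth h hss
  let a : Fin (finrank ℚ_[ℓ] (orth q (tate χ ρ))) → ℚ_[ℓ] := fun i => form q (e i) (e i)
  let U : Matrix n (Fin (finrank ℚ_[ℓ] (orth q (tate χ ρ)))) ℚ_[ℓ] := Matrix.of fun i j => e j i
  let W : Matrix (Fin (finrank ℚ_[ℓ] (orth q (tate χ ρ)))) n ℚ_[ℓ] :=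
    Matrix.of fun i j => (a i)⁻¹ * (q *ᵥ e i) j
  have hU : ∀ x, U *ᵥ x = ∑ j, x j • e j := by
    intro x
    ext i
    simp [U, Matrix.mulVec, dotProduct, mul_comm]
  have hU1 : ∀ j, U *ᵥ Pi.single j 1 = e j := by
    intro j
    rw [Matrix.mulVec_single_one]
    rfl
  have hW : ∀ x i, (W *ᵥ x) i = (a i)⁻¹ * form q (e i) x := by
    intro x i
    rw [hs, form_apply, dotProduct_comm]
    have h1 : (W *ᵥ x) i = ((a i)⁻¹ • (q *ᵥ e i)) ⬝ᵥ x := rfl
    rw [h1, smul_dotProduct, smul_eq_mul]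
  have hWU : W * U = 1 := by
    refine Matrix.toLin'.injective (LinearMap.ext fun x => ?_)
    rw [Matrix.toLin'_mul, LinearMap.comp_apply, toLin'_apply, toLin'_apply, Matrix.toLin'_one,
      LinearMap.id_apply]
    funext i
    rw [hW, hU, map_sum, Finset.sum_eq_single i]
    · rw [map_smul, smul_eq_mul, mul_comm (x i), ← mul_assoc, inv_mul_cancel₀ (he3 i), one_mul]
    · intro j _ hj
      rw [map_smul, he2 i j (Ne.symm hj), smul_zero]
    · intro h'
      exact absurd (Finset.mem_univ _) h'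
  have hUT : ∀ x, U *ᵥ x ∈ orth q (tate χ ρ) := by
    intro x
    rw [hU]
    exact Submodule.sum_mem _ fun j _ => Submodule.smul_mem _ _ (he1 j)
  have hspan : Submodule.span ℚ_[ℓ] (Set.range e) = orth q (tate χ ρ) := by
    refine Submodule.eq_of_le_of_finrank_eq (Submodule.span_le.2 ?_) ?_
    · rintro _ ⟨i, rfl⟩
      exact he1 i
    · rw [finrank_span_eq_card he4, Fintype.card_fin]
  have hTU : ∀ x ∈ orth q (tate χ ρ), U *ᵥ (W *ᵥ x) = x := by
    intro x hx
    rw [← hspan] at hx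
    induction hx using Submodule.span_induction with
    | mem x hx =>
      obtain ⟨i, rfl⟩ := hx
      rw [← hU1 i, Matrix.mulVec_mulVec _ W, hWU, Matrix.one_mulVec]
    | zero => rw [Matrix.mulVec_zero, Matrix.mulVec_zero]
    | add x y _ _ hx hy => rw [Matrix.mulVec_add, Matrix.mulVec_add, hx, hy]
    | smul c x _ hx => rw [Matrix.mulVec_smul, Matrix.mulVec_smul, hx]
  have hWt : ∀ x ∈ tate χ ρ, W *ᵥ x = 0 := by
    intro x hx
    funext i
    rw [hW, hs, form_apply, he1 i x hx, mul_zero, Pi.zero_apply]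
  refine ⟨a, U, W, ⟨he3, hWU, ?_, fun x i => by rw [hW, hU1], hUT, hTU⟩⟩
  intro X
  constructor
  · intro hX
    have hXs := (skew_of_tate h hX)
    have hXk : ∀ x, X *ᵥ x = X *ᵥ (x - P *ᵥ x) := by
      intro x
      rw [Matrix.mulVec_sub, kill_tate h hX (hP3 x), sub_zero]
    have hXT : ∀ x, X *ᵥ x ∈ orth q (tate χ ρ) := by
      intro x y hy
      have h1 := hXs y x
      rw [toLin'_apply, toLin'_apply, kill_tate h hX hy, map_zero, LinearMap.zero_apply] at h1
      rw [← form_apply]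
      exact (neg_eq_zero.1 h1.symm)
    refine ⟨W * X * U, ?_, ?_⟩
    · intro i j
      have h1 : ∀ i j, a i * (W * X * U) i j = form q (e i) (X *ᵥ e j) := by
        intro i j
        have h2 : (W * X * U) i j = (W *ᵥ (X *ᵥ e j)) i := by
          rw [← hU1 j, Matrix.mulVec_mulVec, Matrix.mulVec_mulVec, Matrix.mulVec_single_one]
          rfl
        rw [h2, hW, ← mul_assoc, mul_inv_cancel₀ (he3 i), one_mul]
      rw [h1, h1]
      have h3 := hXs (e i) (e j)
      rw [toLin'_apply, toLin'_apply] at h3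
      rw [hs (e j), h3]
      ring
    · refine ext_mulVec fun x => ?_
      have e1 : (U * (W * X * U) * W) *ᵥ x = U *ᵥ (W *ᵥ (X *ᵥ (U *ᵥ (W *ᵥ x)))) := by
        simp only [Matrix.mulVec_mulVec, Matrix.mul_assoc]
      rw [e1, hTU _ (hXT _)]
      have h2 : W *ᵥ x = W *ᵥ (x - P *ᵥ x) := by
        rw [Matrix.mulVec_sub, hWt _ (hP3 x), sub_zero]
      rw [h2, hTU _ (hP4 x), ← hXk]
  · rintro ⟨M, hM, rfl⟩
    rw [tate_main h hss]
    refine ⟨?_, fun Y hY => ?_⟩
    · rw [← skew_iff]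
      intro x y
      have h1 : ∀ ξ y, form q (U *ᵥ ξ) y = ∑ i, ξ i * (a i * (W *ᵥ y) i) := by
        intro ξ y
        rw [hU, map_sum, LinearMap.sum_apply]
        refine Finset.sum_congr rfl fun i _ => ?_
        rw [map_smul, LinearMap.smul_apply, smul_eq_mul, hW, ← mul_assoc (a i),
          mul_inv_cancel₀ (he3 i), one_mul]
      rw [toLin'_apply, toLin'_apply, hs x]
      have e1 : ∀ x : n → ℚ_[ℓ], (U * M * W) *ᵥ x = U *ᵥ (M *ᵥ (W *ᵥ x)) := by
        intro x
        simp only [Matrix.mulVec_mulVec, Matrix.mul_assoc]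
      rw [e1, e1, h1, h1, ← Finset.sum_neg_distrib]
      simp only [Matrix.mulVec, dotProduct, Finset.sum_mul]
      simp only [← Finset.sum_neg_distrib]
      rw [Finset.sum_comm]
      refine Finset.sum_congr rfl fun i _ => Finset.sum_congr rfl fun j _ => ?_
      have h2 := hM i j
      linear_combination ((∑ x_1, W i x_1 * x x_1) * (∑ x_1, W j x_1 * y x_1)) * h2
    · obtain ⟨c, hcY⟩ := hc Y hY
      have hYU : Y * U = c • U := by
        refine Matrix.toLin'.injective (LinearMap.ext fun x => ?_)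
        rw [Matrix.toLin'_mul, LinearMap.comp_apply, toLin'_apply, toLin'_apply, toLin'_apply,
          hcY _ (hUT x), Matrix.smul_mulVec]
      have hWY : W * Y = c • W := by
        refine Matrix.toLin'.injective (LinearMap.ext fun x => ?_)
        rw [Matrix.toLin'_mul, LinearMap.comp_apply, toLin'_apply, toLin'_apply, toLin'_apply,
          Matrix.smul_mulVec]
        have h2 : Y *ᵥ x = Y *ᵥ (P *ᵥ x) + c • (x - P *ᵥ x) := by
          rw [← hcY _ (hP4 x), Matrix.mulVec_sub]
          abel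
        rw [h2, Matrix.mulVec_add, hWt _ (end_tate hY (hP3 x)), zero_add, Matrix.mulVec_smul,
          Matrix.mulVec_sub, hWt _ (hP3 x), sub_zero]
      rw [Matrix.mul_assoc, hWY, ← Matrix.mul_assoc Y, ← Matrix.mul_assoc Y, hYU]
      simp only [Matrix.mul_smul, Matrix.smul_mul, Matrix.mul_assoc]

end

end Pool.Agent.H851.IN
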