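import Mathlib
import Pool.Agent.H851.IN.Chain

/-!
# Retracts, graphs, and pieces with abelian image
-/

set_option autoImplicit false
set_option linter.unusedSectionVars false
set_option linter.unusedVariables false

namespace Pool.Agent.H851.IN

open Module TensorProduct Pool.Agent.Y114.RM
open Pool.Agent.H851.ZD

section retract

variable {k : Type} [Field k] {U U' : Type} [AddCommGroup U] [Module k U] [AddCommGroup U']
  [Module k U'] {Γ : Type} [Group Γ] {r : Representation k Γ U} {r' : Representation k Γ U'}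

theorem lt_retract (i : U →ₗ[k] U') (p : U' →ₗ[k] U) (hpi : ∀ x, p (i x) = x)
    (hi : ∀ γ x, i (r γ x) = r' γ (i x)) (hp : ∀ γ x, p (r' γ x) = r γ (p x)) {Z : End k U'}
    (hZ : Z ∈ LT r') : p ∘ₗ Z ∘ₗ i ∈ LT r := by
  refine ⟨?_, ?_⟩
  · rintro W ⟨Δ, hΔ, hW⟩ x hx
    have h1 : Z (i x) ∈ W.map i := by
      refine hZ.1 (W.map i) ⟨Δ, hΔ, ?_⟩ _ ⟨x, hx, rfl⟩
      rintro γ hγ _ ⟨y, hy, rfl⟩
      exact ⟨r γ y, hW γ hγ y hy, hi γ y⟩
    obtain ⟨y, hy, h2⟩ := h1
    rw [LinearMap.comp_apply, LinearMap.comp_apply, ← h2, hpi]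
    exact hy
  · intro m φ hφ v
    let φ' : Tensor k U' m := φ.compLinearMap fun _ => p.prodMap i.dualMap
    have hφ' : ∀ w, φ' w = φ fun l => (p (w l).1, i.dualMap (w l).2) := fun w => rfl
    have hT : TateTensor r' φ' := by
      obtain ⟨Δ, hΔ, h1⟩ := hφ
      refine ⟨Δ, hΔ, fun γ hγ w => ?_⟩
      rw [hφ', hφ', ← h1 γ hγ (fun l => (p (w l).1, i.dualMap (w l).2))]
      congr 1
      funext l
      refine Prod.ext (hp γ _) ?_
      refine LinearMap.ext fun x => ?_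
      change (w l).2 (r' γ⁻¹ (i x)) = (w l).2 (i (r γ⁻¹ x))
      rw [hi]
    have h1 := hZ.2 m φ' hT fun l => (i (v l).1, p.dualMap (v l).2)
    rw [← h1]
    refine Finset.sum_congr rfl fun l _ => ?_
    rw [hφ']
    congr 1
    funext l'
    by_cases h2 : l' = l
    · rw [h2, Function.update_self, Function.update_self]
      refine Prod.ext rfl ?_
      refine LinearMap.ext fun x => ?_
      change (-((v l).2 ∘ₗ (p ∘ₗ Z ∘ₗ i))) x = (-(((v l).2 ∘ₗ p) ∘ₗ Z)) (i x)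
      rfl
    · rw [Function.update_of_ne h2, Function.update_of_ne h2]
      refine Prod.ext (hpi _).symm ?_
      refine LinearMap.ext fun x => ?_
      change (v l').2 x = (v l').2 (p (i x))
      rw [hpi]

end retract

section prod

variable {k : Type} [Field k] {V A W : Type} [AddCommGroup V] [Module k V] [AddCommGroup A]
  [Module k A] [AddCommGroup W] [Module k W] {Γ : Type} [Group Γ] {r : Representation k Γ V}
  {τ : Representation k Γ A} {σ : Representation k Γ W}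

theorem blk_mem {Z : End k (V × W)} (hZ : Z ∈ LT (r.prod σ)) : blk Z ∈ LT r :=
  lt_retract (LinearMap.inl k V W) (LinearMap.fst k V W) (fun x => rfl)
    (fun γ x => by rw [LinearMap.inl_apply, LinearMap.inl_apply, prod_apply, map_zero])
    (fun γ x => rfl) hZ

theorem blk2_mem {Z : End k (V × W)} (hZ : Z ∈ LT (r.prod σ)) : blk2 Z ∈ LT σ :=
  lt_retract (LinearMap.inr k V W) (LinearMap.snd k V W) (fun x => rfl)
    (fun γ x => by rw [LinearMap.inr_apply, LinearMap.inr_apply, prod_apply, map_zero])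
    (fun γ x => rfl) hZ

theorem lt_diag {Z : End k (V × W)} (hZ : Z ∈ LT (r.prod σ)) (x : V × W) :
    Z x = (blk Z x.1, blk2 Z x.2) := by
  have h1 : x = (x.1, 0) + (0, x.2) := by ext <;> simp
  rw [h1, map_add, lt_left hZ]
  refine Prod.ext ?_ ?_
  · rw [Prod.fst_add, lt_right hZ, add_zero]
    simp
  · rw [Prod.snd_add, zero_add, ← blk2_apply]
    simp

/-- If `Γ` acts through commuting operators (after restriction to a subgroup of finite index) then the
Lie algebra is commutative. -/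
theorem lt_comm {Δ : Subgroup Γ} (hΔ : Δ.FiniteIndex)
    (h : ∀ γ ∈ Δ, ∀ δ ∈ Δ, τ γ * τ δ = τ δ * τ γ) {X Y : End k A} (hX : X ∈ LT τ)
    (hY : Y ∈ LT τ) : X * Y = Y * X := by
  refine Pool.Agent.R913.Adj.tate_comm τ hX.2 hΔ fun γ hγ => ?_
  exact Pool.Agent.R913.Adj.tate_comm τ hY.2 hΔ fun δ hδ => h γ hγ δ hδ

/-- `V` and `A` are apart: the elements of `S` lift to operators which kill `A`. -/
def Apart (r : Representation k Γ V) (S : Submodule k (End k V)) (τ : Representation k Γ A) : Prop :=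
  ∀ (W : Type) [AddCommGroup W] [Module k W] [FiniteDimensional k W] (σ : Representation k Γ W),
    ∀ X ∈ S, ∃ Z ∈ LT (r.prod (τ.prod σ)), blk Z = X ∧ ∀ a, Z (0, (a, 0)) = 0

/-- **Pieces.** -/
theorem Apart.piece [FiniteDimensional k W] {S : Submodule k (End k V)} (h : Apart r S τ)
    {F : Submodule k W} {F' : Submodule k W}
    (p : F →ₗ[k] A) {Δ : Subgroup Γ} (hΔ : Δ.FiniteIndex) (hF : ∀ γ ∈ Δ, ∀ x ∈ F, σ γ x ∈ F)
    (hp : ∀ γ (hγ : γ ∈ Δ) (x : F), p ⟨σ γ x, hF γ hγ x x.2⟩ = τ γ (p x))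
    (hker : ∀ x : F, p x = 0 → (x : W) ∈ F') {X : End k V} (hX : X ∈ S) :
    ∃ Z ∈ LT (r.prod σ), blk Z = X ∧ ∀ x ∈ F, blk2 Z x ∈ F' := by
  obtain ⟨Z, hZ, hZX, hZA⟩ := h W σ X hX
  let i : V × W →ₗ[k] V × (A × W) := LinearMap.prodMap LinearMap.id (LinearMap.inr k A W)
  let q : V × (A × W) →ₗ[k] V × W := LinearMap.prodMap LinearMap.id (LinearMap.snd k A W)
  have hi : ∀ x, i x = (x.1, (0, x.2)) := fun x => rfl
  have hq : ∀ x, q x = (x.1, x.2.2) := fun x => rfl
  refine ⟨q ∘ₗ Z ∘ₗ i, ?_, ?_, ?_⟩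
  · refine lt_retract i q (fun x => rfl) (fun γ x => ?_) (fun γ x => rfl) hZ
    rw [hi, hi, prod_apply, prod_apply, prod_apply, map_zero]
  · rw [← hZX]
    rfl
  · intro x hx
    -- the graph of `p`
    let G : Submodule k (V × (A × W)) :=
      { carrier := {z | z.1 = 0 ∧ ∃ y : F, (y : W) = z.2.2 ∧ p y = z.2.1}
        zero_mem' := ⟨rfl, 0, rfl, map_zero p⟩
        add_mem' := by
          rintro a b ⟨h1, y, h2, h3⟩ ⟨h4, y', h5, h6⟩
          exact ⟨by rw [Prod.fst_add, h1, h4, add_zero], y + y',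
            by rw [Prod.snd_add, Prod.snd_add, ← h2, ← h5]; rfl,
            by rw [Prod.snd_add, Prod.fst_add, ← h3, ← h6, map_add]⟩
        smul_mem' := by
          rintro c a ⟨h1, y, h2, h3⟩
          exact ⟨by rw [Prod.smul_fst, h1, smul_zero], c • y,
            by rw [Prod.smul_snd, Prod.smul_snd, ← h2]; rfl,
            by rw [Prod.smul_snd, Prod.smul_fst, ← h3, map_smul]⟩ }
    let H : Submodule k (V × (A × W)) :=
      { carrier := {z | z.1 = 0 ∧ z.2.1 = 0}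
        zero_mem' := ⟨rfl, rfl⟩
        add_mem' := fun {a b} ha hb => ⟨by rw [Prod.fst_add, ha.1, hb.1, add_zero],
          by rw [Prod.snd_add, Prod.fst_add, ha.2, hb.2, add_zero]⟩
        smul_mem' := fun c a ha => ⟨by rw [Prod.smul_fst, ha.1, smul_zero],
          by rw [Prod.smul_snd, Prod.smul_fst, ha.2, smul_zero]⟩ }
    have hG : Z (0, (p ⟨x, hx⟩, x)) ∈ G := by
      refine hZ.1 G ⟨Δ, hΔ, ?_⟩ _ ⟨rfl, ⟨x, hx⟩, rfl, rfl⟩
      rintro γ hγ z ⟨h1, y, h2, h3⟩
      refine ⟨?_, ⟨σ γ y, hF γ hγ y y.2⟩, ?_, ?_⟩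
      · rw [prod_apply, h1, map_zero]
      · rw [prod_apply, prod_apply, ← h2]
      · rw [hp γ hγ, prod_apply, prod_apply, h3]
    have hH : Z (0, (0, x)) ∈ H := by
      refine hZ.1 H ⟨⊤, inferInstance, ?_⟩ _ ⟨rfl, rfl⟩
      rintro γ - z ⟨h1, h2⟩
      exact ⟨by rw [prod_apply, h1, map_zero], by rw [prod_apply, prod_apply, h2, map_zero]⟩
    have h1 : Z (0, (p ⟨x, hx⟩, x)) = Z (0, (0, x)) := by
      have h2 : ((0, (p ⟨x, hx⟩, x)) : V × (A × W)) = (0, (p ⟨x, hx⟩, 0)) + (0, (0, x)) := by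
        ext <;> simp
      rw [h2, map_add, hZA, zero_add]
    rw [h1] at hG
    obtain ⟨-, y, h2, h3⟩ := hG
    change (Z (0, (0, x))).2.2 ∈ F'
    rw [← h2]
    refine hker y ?_
    rw [h3]
    exact hH.2

/-- **Representations with potentially abelian image.** -/
theorem apart_abelian [CharZero k] [FiniteDimensional k V] [FiniteDimensional k A]
    {S : Submodule k (End k V)}
    (hS : ∀ (W : Type) [AddCommGroup W] [Module k W] [FiniteDimensional k W]
      (σ : Representation k Γ W), ∀ X ∈ S, ∃ Z ∈ LT (r.prod σ), blk Z = X)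
    (hper : ∀ I : Submodule k (End k V), (∀ A ∈ S, ∀ B ∈ S, A * B - B * A ∈ I) → S ≤ I)
    {Δ : Subgroup Γ} (hΔ : Δ.FiniteIndex)
    (h : ∀ γ ∈ Δ, ∀ δ ∈ Δ, τ γ * τ δ = τ δ * τ γ) : Apart r S τ := by
  intro W _ _ _ σ
  obtain ⟨L, hLT, hLie, hAd, -⟩ := Pool.Agent.Y41.RM.lieL' k (V × (A × W)) Γ (r.prod (τ.prod σ))
  let M : Submodule k (End k (V × (A × W))) :=
    { carrier := {Z | Z ∈ L ∧ ∀ a, Z (0, (a, 0)) = 0}
      zero_mem' := ⟨L.zero_mem, fun _ => rfl⟩
      add_mem' := fun {a b} ha hb => ⟨L.add_mem ha.1 hb.1, fun x => by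
        rw [LinearMap.add_apply, ha.2, hb.2, add_zero]⟩
      smul_mem' := fun c a ha => ⟨L.smul_mem c ha.1, fun x => by
        rw [LinearMap.smul_apply, ha.2, smul_zero]⟩ }
  have hM : S ≤ M.map blk := by
    refine hper _ fun X hX Y hY => ?_
    obtain ⟨X', hX', rfl⟩ := hS (A × W) (τ.prod σ) X hX
    obtain ⟨Y', hY', rfl⟩ := hS (A × W) (τ.prod σ) Y hY
    refine ⟨X' * Y' - Y' * X', ⟨hLie _ ((hLT _).2 hX') _ ((hLT _).2 hY'), fun a => ?_⟩, ?_⟩
    · have h1 := blk2_mem hX'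
      have h2 := blk2_mem hY'
      have h3 : ∀ {Z : End k (V × (A × W))} (hZ : Z ∈ LT (r.prod (τ.prod σ))) (a : A),
          Z (0, (a, 0)) = (0, (blk (blk2 Z) a, 0)) := by
        intro Z hZ a
        rw [lt_diag hZ, lt_left (blk2_mem hZ), map_zero]
      rw [LinearMap.sub_apply, Module.End.mul_apply, Module.End.mul_apply, h3 hY', h3 hX',
        h3 hX', h3 hY']
      have h4 := LinearMap.congr_fun (lt_comm hΔ h (blk_mem h1) (blk_mem h2)) a
      rw [Module.End.mul_apply, Module.End.mul_apply] at h4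
      rw [h4, sub_self]
    · rw [map_sub, blk_mul hY', blk_mul hX']
  intro X hX
  obtain ⟨Z, ⟨hZ1, hZ2⟩, rfl⟩ := hM hX
  exact ⟨Z, (hLT _).1 hZ1, rfl, hZ2⟩

end prod

end Pool.Agent.H851.IN
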