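import Mathlib
import Pool.Agent.H851.IN.Ret

/-!
# Subquotients on which a subgroup of finite index acts through commuting operators
-/

set_option autoImplicit false
set_option linter.unusedSectionVars false
set_option linter.unusedVariables false

namespace Pool.Agent.H851.IN

open Module TensorProduct Pool.Agent.Y114.RM
open Pool.Agent.H851.ZD

variable {k : Type} [Field k] {Γ : Type} [Group Γ] {Q : Type} [AddCommGroup Q] [Module k Q]
  {Δ : Subgroup Γ} (D : Δ → End k Q)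

/-- the coinduced space -/
def Co : Submodule k (Γ → Q) where
  carrier := {f | ∀ (δ : Δ) (γ : Γ), f (δ * γ) = D δ (f γ)}
  zero_mem' := fun δ γ => by rw [Pi.zero_apply, Pi.zero_apply, map_zero]
  add_mem' := fun {a b} ha hb δ γ => by rw [Pi.add_apply, Pi.add_apply, map_add, ha, hb]
  smul_mem' := fun c a ha δ γ => by rw [Pi.smul_apply, Pi.smul_apply, map_smul, ha]

/-- the action on the coinduced space -/
def coRep : Representation k Γ (Co D) where
  toFun g :=
    { toFun := fun f => ⟨fun γ => f.1 (γ * g), fun δ γ => by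
        change f.1 (δ * γ * g) = D δ (f.1 (γ * g))
        rw [mul_assoc]
        exact f.2 δ _⟩
      map_add' := fun _ _ => rfl
      map_smul' := fun _ _ => rfl }
  map_one' := by
    refine LinearMap.ext fun f => Subtype.ext (funext fun γ => ?_)
    change f.1 (γ * 1) = f.1 γ
    rw [mul_one]
  map_mul' g h := by
    refine LinearMap.ext fun f => Subtype.ext (funext fun γ => ?_)
    change f.1 (γ * (g * h)) = f.1 (γ * g * h)
    rw [mul_assoc]

theorem coRep_apply (g : Γ) (f : Co D) (γ : Γ) : (coRep D g f).1 γ = f.1 (γ * g) := rfl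

theorem co_finite [FiniteDimensional k Q] [hΔ : Δ.FiniteIndex] : FiniteDimensional k (Co D) := by
  have : Finite (Γ ⧸ Δ) := Subgroup.finite_quotient_of_finiteIndex
  let e : Co D →ₗ[k] ((Γ ⧸ Δ) → Q) :=
    { toFun := fun f c => f.1 (Quotient.out c)⁻¹
      map_add' := fun _ _ => rfl
      map_smul' := fun _ _ => rfl }
  refine FiniteDimensional.of_injective e fun f f' hff => Subtype.ext (funext fun γ => ?_)
  obtain ⟨δ, hδ⟩ := QuotientGroup.mk_out_eq_mul Δ γ⁻¹
  have h1 : γ = (δ : Γ) * (Quotient.out ((γ⁻¹ : Γ) : Γ ⧸ Δ))⁻¹ := by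
    rw [hδ]
    group
  have h2 := congrFun hff ((γ⁻¹ : Γ) : Γ ⧸ Δ)
  rw [h1, f.2, f'.2]
  exact congrArg _ h2

theorem co_comm (hD : ∀ γ δ : Δ, D (γ * δ) = D γ * D δ) (hc : ∀ γ δ : Δ, D γ * D δ = D δ * D γ)
    {γ δ : Γ} (hγ : γ ∈ Δ.normalCore) (hδ : δ ∈ Δ.normalCore) :
    coRep D γ * coRep D δ = coRep D δ * coRep D γ := by
  refine LinearMap.ext fun f => Subtype.ext (funext fun x => ?_)
  rw [Module.End.mul_apply, Module.End.mul_apply, coRep_apply, coRep_apply, coRep_apply,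
    coRep_apply]
  have h1 : x * γ * x⁻¹ ∈ Δ := hγ x
  have h2 : x * δ * x⁻¹ ∈ Δ := hδ x
  have e1 : x * γ * δ = ((⟨_, h1⟩ * ⟨_, h2⟩ : Δ) : Γ) * x := by
    rw [Subgroup.coe_mul]
    group
  have e2 : x * δ * γ = ((⟨_, h2⟩ * ⟨_, h1⟩ : Δ) : Γ) * x := by
    rw [Subgroup.coe_mul]
    group
  rw [e1, e2, f.2, f.2, hD, hD, hc]

theorem abelian_piece [CharZero k] {V W : Type} [AddCommGroup V] [Module k V]
    [FiniteDimensional k V] [AddCommGroup W] [Module k W] [FiniteDimensional k W]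
    {r : Representation k Γ V} {σ : Representation k Γ W} {S : Submodule k (End k V)}
    (hS : ∀ (W : Type) [AddCommGroup W] [Module k W] [FiniteDimensional k W]
      (σ : Representation k Γ W), ∀ X ∈ S, ∃ Z ∈ LT (r.prod σ), blk Z = X)
    (hper : ∀ I : Submodule k (End k V), (∀ A ∈ S, ∀ B ∈ S, A * B - B * A ∈ I) → S ≤ I)
    {F F' : Submodule k W} (hle : F' ≤ F) (hΔ : Δ.FiniteIndex)
    (hF : ∀ γ ∈ Δ, ∀ x ∈ F, σ γ x ∈ F) (hF' : ∀ γ ∈ Δ, ∀ x ∈ F', σ γ x ∈ F')
    (hab : ∀ γ ∈ Δ, ∀ δ ∈ Δ, ∀ x ∈ F, σ γ (σ δ x) - σ δ (σ γ x) ∈ F') {X : End k V} (hX : X ∈ S) :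
    ∃ Z ∈ LT (r.prod σ), blk Z = X ∧ ∀ x ∈ F, blk2 Z x ∈ F' := by
  classical
  let Q := F ⧸ (F'.comap F.subtype)
  have hq : ∀ γ : Δ, F'.comap F.subtype ≤ (F'.comap F.subtype).comap
      ((σ γ).restrict (hF γ γ.2)) := by
    intro γ x hx
    rw [Submodule.mem_comap] at hx
    rw [Submodule.mem_comap, Submodule.mem_comap]
    exact hF' γ γ.2 x hx
  let D : Δ → End k Q := fun γ => Submodule.mapQ _ _ ((σ γ).restrict (hF γ γ.2)) (hq γ)
  have hDa : ∀ (γ : Δ) (y : F), D γ (Submodule.Quotient.mk y) =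
      Submodule.Quotient.mk ⟨σ γ y, hF γ γ.2 y y.2⟩ := fun _ _ => rfl
  have hD : ∀ γ δ : Δ, D (γ * δ) = D γ * D δ := by
    intro γ δ
    refine LinearMap.ext fun x => ?_
    obtain ⟨y, rfl⟩ := Submodule.Quotient.mk_surjective _ x
    rw [Module.End.mul_apply, hDa, hDa, hDa]
    congr 1
    apply Subtype.ext
    change σ ((γ : Γ) * δ) (y : W) = σ γ (σ δ y)
    rw [map_mul]
    rfl
  have hD1 : D 1 = 1 := by
    refine LinearMap.ext fun x => ?_
    obtain ⟨y, rfl⟩ := Submodule.Quotient.mk_surjective _ x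
    rw [hDa, Module.End.one_apply]
    congr 1
    apply Subtype.ext
    change σ (1 : Γ) (y : W) = y
    rw [map_one]
    rfl
  have hc : ∀ γ δ : Δ, D γ * D δ = D δ * D γ := by
    intro γ δ
    refine LinearMap.ext fun x => ?_
    obtain ⟨y, rfl⟩ := Submodule.Quotient.mk_surjective _ x
    rw [Module.End.mul_apply, Module.End.mul_apply, hDa, hDa, hDa, hDa, Submodule.Quotient.eq]
    exact hab γ γ.2 δ δ.2 y y.2
  have : FiniteDimensional k (Co D) := co_finite D
  have hA := apart_abelian (τ := coRep D) hS hper (Δ := Δ.normalCore) inferInstance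
    fun γ hγ δ hδ => co_comm D hD hc hγ hδ
  let p : F →ₗ[k] Co D :=
    { toFun := fun x => ⟨fun γ => if h : γ ∈ Δ then D ⟨γ, h⟩ (Submodule.Quotient.mk x) else 0, by
        intro δ γ
        change (if h : (δ : Γ) * γ ∈ Δ then D ⟨δ * γ, h⟩ (Submodule.Quotient.mk x) else 0) =
          D δ (if h : γ ∈ Δ then D ⟨γ, h⟩ (Submodule.Quotient.mk x) else 0)
        by_cases h : γ ∈ Δ
        · rw [dif_pos h, dif_pos (Δ.mul_mem δ.2 h)]
          have h1 : (⟨(δ : Γ) * γ, Δ.mul_mem δ.2 h⟩ : Δ) = δ * ⟨γ, h⟩ := rfl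
          rw [h1, hD]
          rfl
        · have h2 : (δ : Γ) * γ ∉ Δ := fun h3 => h (by
            have h4 := Δ.mul_mem (Δ.inv_mem δ.2) h3
            rwa [inv_mul_cancel_left] at h4)
          rw [dif_neg h, dif_neg h2, map_zero]⟩
      map_add' := fun x y => Subtype.ext (funext fun γ => by
        change (if h : γ ∈ Δ then D ⟨γ, h⟩ (Submodule.Quotient.mk (x + y)) else 0) =
          (if h : γ ∈ Δ then D ⟨γ, h⟩ (Submodule.Quotient.mk x) else 0) +
          (if h : γ ∈ Δ then D ⟨γ, h⟩ (Submodule.Quotient.mk y) else 0)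
        by_cases h : γ ∈ Δ
        · rw [dif_pos h, dif_pos h, dif_pos h, Submodule.Quotient.mk_add, map_add]
        · rw [dif_neg h, dif_neg h, dif_neg h, add_zero])
      map_smul' := fun c x => Subtype.ext (funext fun γ => by
        change (if h : γ ∈ Δ then D ⟨γ, h⟩ (Submodule.Quotient.mk (c • x)) else 0) =
          c • (if h : γ ∈ Δ then D ⟨γ, h⟩ (Submodule.Quotient.mk x) else 0)
        by_cases h : γ ∈ Δ
        · rw [dif_pos h, dif_pos h, Submodule.Quotient.mk_smul, map_smul]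
        · rw [dif_neg h, dif_neg h, smul_zero]) }
  have hpa : ∀ (x : F) (γ : Γ), (p x).1 γ =
      if h : γ ∈ Δ then D ⟨γ, h⟩ (Submodule.Quotient.mk x) else 0 := fun _ _ => rfl
  refine hA.piece p hΔ hF (fun γ hγ x => Subtype.ext (funext fun δ => ?_)) (fun x hx => ?_) hX
  · rw [coRep_apply, hpa, hpa]
    by_cases h : δ ∈ Δ
    · rw [dif_pos h, dif_pos (Δ.mul_mem h hγ)]
      have h1 : (⟨δ * γ, Δ.mul_mem h hγ⟩ : Δ) = ⟨δ, h⟩ * ⟨γ, hγ⟩ := rfl
      rw [h1, hD]
      rfl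
    · have h2 : δ * γ ∉ Δ := fun h3 => h (by
        have h4 := Δ.mul_mem h3 (Δ.inv_mem hγ)
        rwa [mul_inv_cancel_right] at h4)
      rw [dif_neg h, dif_neg h2]
  · have h1 : (p x).1 1 = 0 := by rw [hx]; rfl
    rw [hpa, dif_pos Δ.one_mem] at h1
    have h2 : (⟨1, Δ.one_mem⟩ : Δ) = 1 := rfl
    rw [h2, hD1, Module.End.one_apply, Submodule.Quotient.mk_eq_zero] at h1
    exact h1

end Pool.Agent.H851.IN
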