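import Mathlib
import Pool.Agent.H851.IN.Fr
import Pool.Agent.H851.IN.Ind

/-!
# The Lie algebra of a direct sum splits
-/

set_option autoImplicit false
set_option linter.unusedSectionVars false
set_option linter.unusedVariables false

namespace Pool.Agent.H851.IN

open Matrix Module Pool.Agent.Y114.RM
open NumberField IsDedekindDomain Polynomial
open Pool.Agent.H851.K3 Pool.Agent.H851.KT Pool.Agent.H851.TT Pool.Agent.H851.ZD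
open Pool.Agent.NH56.HY (GK tw tw_apply chi_ne)

variable {K : Type} [Field K] [NumberField K] {ℓ : ℕ} [hℓ : Fact ℓ.Prime] {n : Type}
    [Fintype n] [DecidableEq n] {q : Matrix n n ℚ_[ℓ]} {S : Finset ℕ} {χ : GK K →* ℚ_[ℓ]}
    {Pol : HeightOneSpectrum (𝓞 K) → ℤ[X]} {ρ : GK K →* Matrix n n ℚ_[ℓ]}

/-- the Lie algebra as a space of endomorphisms -/
noncomputable def lieE (χ : GK K →* ℚ_[ℓ]) (ρ : GK K →* Matrix n n ℚ_[ℓ]) :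
    Submodule ℚ_[ℓ] (End ℚ_[ℓ] (n → ℚ_[ℓ])) :=
  (tateLie χ ρ).map (Matrix.toLin' : Matrix n n ℚ_[ℓ] ≃ₗ[ℚ_[ℓ]] _).toLinearMap

theorem mem_lieE {X : End ℚ_[ℓ] (n → ℚ_[ℓ])} :
    X ∈ lieE χ ρ ↔ LinearMap.toMatrix' X ∈ tateLie χ ρ := by
  constructor
  · rintro ⟨Y, hY, rfl⟩
    change LinearMap.toMatrix' (Matrix.toLin' Y) ∈ _
    rw [LinearMap.toMatrix'_toLin']
    exact hY
  · intro h
    exact ⟨_, h, Matrix.toLin'_toMatrix' X⟩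

theorem lin_mem_lieE {X : Matrix n n ℚ_[ℓ]} (hX : X ∈ tateLie χ ρ) :
    Matrix.toLin' X ∈ lieE χ ρ := ⟨X, hX, rfl⟩

theorem lieE_of_lt {X : End ℚ_[ℓ] (n → ℚ_[ℓ])} (hX : X ∈ LT (rep χ ρ)) : X ∈ lieE χ ρ := by
  rw [mem_lieE]
  intro m φ hφ
  rw [Matrix.toLin'_toMatrix']
  exact hX.2 m φ hφ

/-- simplicity of the Lie algebra, as a space of endomorphisms -/
theorem lieE_simple {d : ℕ} {a : Fin d → ℚ_[ℓ]} {U : Matrix n (Fin d) ℚ_[ℓ]}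
    {W : Matrix (Fin d) n ℚ_[ℓ]} (F : Frame q (tateLie χ ρ) (orth q (tate χ ρ)) a U W)
    (hd : d ≠ 4) (I : Submodule ℚ_[ℓ] (End ℚ_[ℓ] (n → ℚ_[ℓ]))) (hI : I ≤ lieE χ ρ)
    (hid : ∀ A ∈ lieE χ ρ, ∀ Z ∈ I, A * Z - Z * A ∈ I) : I = ⊥ ∨ I = lieE χ ρ := by
  let e : Matrix n n ℚ_[ℓ] →ₗ[ℚ_[ℓ]] End ℚ_[ℓ] (n → ℚ_[ℓ]) :=
    (Matrix.toLin' : Matrix n n ℚ_[ℓ] ≃ₗ[ℚ_[ℓ]] _).toLinearMap
  have he : ∀ X, e X = Matrix.toLin' X := fun _ => rfl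
  have h1 := F.simple (by rwa [Fintype.card_fin]) (I := I.comap e) (by
      intro M hM
      have h2 := hI hM
      rw [mem_lieE] at h2
      have h3 : LinearMap.toMatrix' (e M) = M := LinearMap.toMatrix'_toLin' M
      rwa [h3] at h2) (by
      intro A hA Z hZ
      have h2 := hid _ (lin_mem_lieE hA) _ hZ
      rw [Submodule.mem_comap, he, map_sub, Matrix.toLin'_mul, Matrix.toLin'_mul]
      exact h2)
  have hmap : (I.comap e).map e = I := by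
    refine le_antisymm (Submodule.map_comap_le _ _) fun X hX => ?_
    refine ⟨LinearMap.toMatrix' X, ?_, Matrix.toLin'_toMatrix' X⟩
    change e _ ∈ I
    rw [he, Matrix.toLin'_toMatrix']
    exact hX
  rcases h1 with h1 | h1
  · left
    rw [← hmap, h1, Submodule.map_bot]
  · right
    rw [← hmap, h1]
    rfl

theorem lieE_perfect {d : ℕ} {a : Fin d → ℚ_[ℓ]} {U : Matrix n (Fin d) ℚ_[ℓ]}
    {W : Matrix (Fin d) n ℚ_[ℓ]} (F : Frame q (tateLie χ ρ) (orth q (tate χ ρ)) a U W)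
    (hd : 3 ≤ d) (I : Submodule ℚ_[ℓ] (End ℚ_[ℓ] (n → ℚ_[ℓ])))
    (hI : ∀ A ∈ lieE χ ρ, ∀ B ∈ lieE χ ρ, A * B - B * A ∈ I) : lieE χ ρ ≤ I := by
  let e : Matrix n n ℚ_[ℓ] →ₗ[ℚ_[ℓ]] End ℚ_[ℓ] (n → ℚ_[ℓ]) :=
    (Matrix.toLin' : Matrix n n ℚ_[ℓ] ≃ₗ[ℚ_[ℓ]] _).toLinearMap
  have he : ∀ X, e X = Matrix.toLin' X := fun _ => rfl
  have h1 := F.perfect (by rwa [Fintype.card_fin]) (I := I.comap e) (by
      intro A hA B hB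
      rw [Submodule.mem_comap, he, map_sub, Matrix.toLin'_mul, Matrix.toLin'_mul]
      exact hI _ (lin_mem_lieE hA) _ (lin_mem_lieE hB))
  rintro _ ⟨X, hX, rfl⟩
  exact h1 hX

theorem lieE_dim {d : ℕ} {a : Fin d → ℚ_[ℓ]} {U : Matrix n (Fin d) ℚ_[ℓ]}
    {W : Matrix (Fin d) n ℚ_[ℓ]} (F : Frame q (tateLie χ ρ) (orth q (tate χ ρ)) a U W) :
    d * (d - 1) ≤ 2 * finrank ℚ_[ℓ] (lieE χ ρ) := by
  refine F.dim.trans (Nat.mul_le_mul_left 2 (le_of_eq ?_))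
  exact (LinearEquiv.finrank_map_eq (Matrix.toLin' : Matrix n n ℚ_[ℓ] ≃ₗ[ℚ_[ℓ]] _)
    (tateLie χ ρ)).symm

theorem lift_all (h : IsK3Type q S χ Pol ρ) (hss : Semisimple ρ) (W : Type) [AddCommGroup W]
    [Module ℚ_[ℓ] W] [FiniteDimensional ℚ_[ℓ] W] (σ : Representation ℚ_[ℓ] (GK K) W) :
    ∀ X ∈ lieE χ ρ, ∃ Z ∈ LT ((rep χ ρ).prod σ), blk Z = X := by
  rintro _ ⟨X, hX, rfl⟩
  exact lift σ h hss hX

variable {W : Type} [AddCommGroup W] [Module ℚ_[ℓ] W] [FiniteDimensional ℚ_[ℓ] W]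

/-- **The splitting.** -/
theorem split (h : IsK3Type q S χ Pol ρ) (hss : Semisimple ρ) (hc : ScalarEnds q χ ρ)
    (hd3 : 3 ≤ finrank ℚ_[ℓ] (orth q (tate χ ρ))) (hd4 : finrank ℚ_[ℓ] (orth q (tate χ ρ)) ≠ 4)
    (σ : Representation ℚ_[ℓ] (GK K) W) {Δ : Subgroup (GK K)} (hΔ : Δ.FiniteIndex) (N : ℕ)
    (F : ℕ → Submodule ℚ_[ℓ] W) (h0 : F 0 = ⊥) (hN : F N = ⊤) (hle : ∀ i, F i ≤ F (i + 1))
    (hst : ∀ i, ∀ γ ∈ Δ, ∀ x ∈ F i, σ γ x ∈ F i)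
    (hp : ∀ i < N, (2 * (finrank ℚ_[ℓ] (F (i + 1)) - finrank ℚ_[ℓ] (F i)) ^ 2 ≤
        finrank ℚ_[ℓ] (orth q (tate χ ρ)) * (finrank ℚ_[ℓ] (orth q (tate χ ρ)) - 1)) ∨
      (∀ γ ∈ Δ, ∀ δ ∈ Δ, ∀ x ∈ F (i + 1), σ γ (σ δ x) - σ δ (σ γ x) ∈ F i) ∨
      ∀ X ∈ lieE χ ρ, ∃ Z ∈ LT ((rep χ ρ).prod σ), blk Z = X ∧ ∀ x ∈ F (i + 1), blk2 Z x ∈ F i)
    {X : Matrix n n ℚ_[ℓ]} (hX : X ∈ tateLie χ ρ) :
    ext1 (Matrix.toLin' X) ∈ LT ((rep χ ρ).prod σ) := by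
  obtain ⟨a, U, W', Fr⟩ := exists_frame h hss hc
  obtain ⟨L, hLT, hLie, -, -⟩ := Pool.Agent.Y41.RM.lieL' ℚ_[ℓ] ((n → ℚ_[ℓ]) × W) (GK K)
    ((rep χ ρ).prod σ)
  have B : Blocks L (lieE χ ρ) := by
    refine ⟨hLie, fun Z hZ x => lt_diag ((hLT Z).1 hZ) x, le_antisymm ?_ ?_,
      lieE_simple Fr hd4, lieE_perfect Fr hd3⟩
    · rintro _ ⟨Z, hZ, rfl⟩
      exact lieE_of_lt (blk_mem ((hLT Z).1 hZ))
    · intro Y hY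
      obtain ⟨Z, hZ, h1⟩ := lift_all h hss W σ Y hY
      exact ⟨Z, (hLT Z).2 hZ, h1⟩
  have hstL : ∀ i, ∀ Z ∈ L, ∀ x ∈ F i, blk2 Z x ∈ F i := fun i Z hZ x hx =>
    (blk2_mem ((hLT Z).1 hZ)).1 (F i) ⟨Δ, hΔ, hst i⟩ x hx
  have h1 := B.chain F N h0 hN (fun i _ => hstL i) (fun i hi => ?_) _ (lin_mem_lieE hX)
  · exact (hLT _).1 h1
  rcases hp i hi with h2 | h2 | h2
  · have h3 := lieE_dim Fr
    have h4 := Submodule.finrank_mono (hle i)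
    refine B.small (hstL (i + 1)) (hstL i)
      (finrank ℚ_[ℓ] (F (i + 1)) - finrank ℚ_[ℓ] (F i)) (by omega) (hle i) ?_
    rw [sq] at h2
    have h5 := h2.trans h3
    omega
  · refine ⟨fun Z hZ => hZ.1, fun Y hY => ?_⟩
    obtain ⟨Z, hZ1, hZ2, hZ3⟩ := abelian_piece (lift_all h hss) (lieE_perfect Fr hd3) (hle i) hΔ
      (hst (i + 1)) (hst i) h2 hY
    exact ⟨Z, ⟨(hLT _).2 hZ1, hZ3⟩, hZ2⟩
  · refine ⟨fun Z hZ => hZ.1, fun Y hY => ?_⟩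
    obtain ⟨Z, hZ1, hZ2, hZ3⟩ := h2 Y hY
    exact ⟨Z, ⟨(hLT _).2 hZ1, hZ3⟩, hZ2⟩

end Pool.Agent.H851.IN
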