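import Mathlib
import Pool.Agent.H851.IN.Split
import Pool.Agent.H851.TT.Pub
import Pool.Agent.H851.ZD.Forms

/-!
# Mixed Tate forms are generated by products
-/

set_option autoImplicit false
set_option linter.unusedSectionVars false
set_option linter.unusedVariables false

namespace Pool.Agent.H851.IN

open Matrix Finset Function Module Pool.Agent.Y114.RM
open NumberField IsDedekindDomain Polynomial
open Pool.Agent.N429.KS
open Pool.Agent.H851.K3 Pool.Agent.H851.KT Pool.Agent.H851.TT Pool.Agent.H851.ZD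
open Pool.Agent.NH56.HY (GK tw tw_apply chi_ne)

section sys

variable {Γ : Type} [Group Γ] [TopologicalSpace Γ] {ℓ : ℕ} [Fact ℓ.Prime] {n : Type} [Fintype n]
  [DecidableEq n]

theorem InvForm.add' {r : Γ →* Matrix n n ℚ_[ℓ]} {S : Type} [Fintype S] [DecidableEq S]
    {f g : (S → n) → ℚ_[ℓ]} (hf : InvForm r f) (hg : InvForm r g) : InvForm r (f + g) := by
  obtain ⟨U, hU, h1⟩ := hf
  obtain ⟨U', hU', h2⟩ := hg
  refine ⟨U ⊓ U', hU.inter hU', fun γ hγ => ?_⟩
  rw [chg_add, h1 γ hγ.1, h2 γ hγ.2]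

/-- the space of the invariant forms -/
def invSub (r : Γ →* Matrix n n ℚ_[ℓ]) (S : Type) [Fintype S] [DecidableEq S] :
    Submodule ℚ_[ℓ] ((S → n) → ℚ_[ℓ]) where
  carrier := {f | InvForm r f}
  zero_mem' := ⟨⊤, isOpen_univ, fun g _ => chg_zero _⟩
  add_mem' := fun hf hg => InvForm.add' hf hg
  smul_mem' := fun c f hf => by
    obtain ⟨U, hU, h1⟩ := hf
    exact ⟨U, hU, fun g hg => by rw [chg_smul, h1 g hg]⟩

theorem mem_invSub {r : Γ →* Matrix n n ℚ_[ℓ]} {S : Type} [Fintype S] [DecidableEq S]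
    {f : (S → n) → ℚ_[ℓ]} : f ∈ invSub r S ↔ InvForm r f := Iff.rfl

/-- one open subgroup fixes all invariant forms of a given degree -/
theorem exists_fix (r : Γ →* Matrix n n ℚ_[ℓ]) (S : Type) [Fintype S] [DecidableEq S] :
    ∃ U : Subgroup Γ, IsOpen (U : Set Γ) ∧ ∀ g ∈ U, ∀ f ∈ invSub r S, chg (r g) f = f := by
  let b := Module.finBasis ℚ_[ℓ] (invSub r S)
  have h1 : ∀ i, ∃ U : Subgroup Γ, IsOpen (U : Set Γ) ∧ ∀ g ∈ U, chg (r g) (b i).1 = (b i).1 :=
    fun i => (b i).2
  choose U hU hU' using h1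
  refine ⟨⨅ i, U i, ?_, ?_⟩
  · rw [Subgroup.coe_iInf]
    exact isOpen_iInter_of_finite hU
  · intro g hg f hf
    have h2 : f = ∑ i, b.repr ⟨f, hf⟩ i • (b i).1 := by
      have h3 : (⟨f, hf⟩ : invSub r S) = ∑ i, b.repr ⟨f, hf⟩ i • b i := (b.sum_repr _).symm
      refine (congrArg Subtype.val h3).trans ?_
      rw [AddSubmonoidClass.coe_finsetSum]
      rfl
    rw [h2]
    have h4 : ∀ s : Finset (Fin (finrank ℚ_[ℓ] (invSub r S))),
        chg (r g) (∑ i ∈ s, b.repr ⟨f, hf⟩ i • (b i).1) = ∑ i ∈ s, b.repr ⟨f, hf⟩ i • (b i).1 := by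
      intro s
      induction s using Finset.induction_on with
      | empty => rw [Finset.sum_empty, chg_zero]
      | insert i s hi ih =>
        rw [Finset.sum_insert hi, chg_add, ih, chg_smul, hU' i g (Subgroup.mem_iInf.1 hg i)]
    exact h4 univ

/-- the instances do not matter -/
theorem inv_inst {r : Γ →* Matrix n n ℚ_[ℓ]} {S : Type} (i1 i2 : Fintype S) (d1 d2 : DecidableEq S)
    {f : (S → n) → ℚ_[ℓ]} (h : @InvForm Γ _ _ ℓ _ n _ _ r S i1 d1 f) :
    @InvForm Γ _ _ ℓ _ n _ _ r S i2 d2 f := by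
  have e1 : i1 = i2 := Subsingleton.elim _ _
  have e2 : d1 = d2 := Subsingleton.elim _ _
  subst e1 e2
  exact h

/-- the system of the invariant forms -/
noncomputable def invSys (r : Γ →* Matrix n n ℚ_[ℓ]) : Sys ℚ_[ℓ] n where
  Alg S :=
    { carrier := {f | ∀ _ : Finite S, @InvForm Γ _ _ ℓ _ n _ _ r S (Fintype.ofFinite S)
        (Classical.decEq S) f}
      zero_mem' := fun _ => (@invSub Γ _ _ ℓ _ n _ _ r S (Fintype.ofFinite S)
        (Classical.decEq S)).zero_mem
      add_mem' := fun hf hg i => (@invSub Γ _ _ ℓ _ n _ _ r S (Fintype.ofFinite S)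
        (Classical.decEq S)).add_mem (hf i) (hg i)
      smul_mem' := fun c _ hf i => (@invSub Γ _ _ ℓ _ n _ _ r S (Fintype.ofFinite S)
        (Classical.decEq S)).smul_mem c (hf i) }
  one := fun _ => by
    refine inv_inst inferInstance _ inferInstance _ ⟨⊤, isOpen_univ, fun g _ => ?_⟩
    funext J
    rw [chg, Fintype.sum_unique]
    rw [Finset.prod_of_isEmpty, one_smul]
  re := fun {S T} _ _ e f hf _ => by
    classical
    let _ : Fintype S := Fintype.ofFinite S
    let _ : Fintype T := Fintype.ofFinite T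
    exact inv_inst _ _ _ _ (inv_re e (inv_inst _ _ _ _ (hf inferInstance)))
  mul := fun {S T} _ _ f g hf hg _ => by
    classical
    let _ : Fintype S := Fintype.ofFinite S
    let _ : Fintype T := Fintype.ofFinite T
    have hf' : InvForm r f := inv_inst _ _ _ _ (hf inferInstance)
    have hg' : InvForm r g := inv_inst _ _ _ _ (hg inferInstance)
    obtain ⟨U, hU, h1⟩ := hf'
    obtain ⟨U', hU', h2⟩ := hg'
    refine inv_inst inferInstance _ inferInstance _ ⟨U ⊓ U', hU.inter hU', fun γ hγ => ?_⟩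
    have h3 := chg_mul (U := r γ) (LinearMap.mul ℚ_[ℓ] ℚ_[ℓ]) f g
    rw [h1 γ hγ.1, h2 γ hγ.2] at h3
    exact h3

theorem mem_invSys {r : Γ →* Matrix n n ℚ_[ℓ]} {S : Type} [Fintype S] [DecidableEq S]
    {f : (S → n) → ℚ_[ℓ]} : f ∈ (invSys r).Alg S ↔ InvForm r f :=
  ⟨fun h => inv_inst _ _ _ _ (h inferInstance), fun h _ => inv_inst _ _ _ _ h⟩

end sys

section

variable {K : Type} [Field K] [NumberField K] {ℓ : ℕ} [hℓ : Fact ℓ.Prime] {n : Type}
    [Fintype n] [DecidableEq n] {q : Matrix n n ℚ_[ℓ]} {S : Finset ℕ} {χ : GK K →* ℚ_[ℓ]}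
    {Pol : HeightOneSpectrum (𝓞 K) → ℤ[X]} {ρ : GK K →* Matrix n n ℚ_[ℓ]}

/-- forms killed by the Lie algebra are invariant under an open subgroup -/
theorem inv_of_der (h : IsK3Type q S χ Pol ρ) (hss : Semisimple ρ) {T : Type} [Fintype T]
    [DecidableEq T] (f : (T → n) → ℚ_[ℓ]) (hf : ∀ X ∈ tateLie χ ρ, der X f = 0) :
    InvForm (tw χ ρ) f := by
  obtain ⟨P, D, -, -, hP3, -⟩ := exists_dat h hss (C := AlgebraicClosure ℚ_[ℓ])
  obtain ⟨U, hU, hUc⟩ := exists_U h hss
  have key : f ∈ (invSys (tw χ ρ)).Alg T := by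
    refine gen D (invSys (tw χ ρ)) ?_ ?_ ?_ f hf
    · intro m
      have h1 := lin_inv h (hP3 (Pi.single m 1))
      have h2 : (fun J : Unit → n => (q * P) (J ()) m) =
          fun J : Unit → n => (q *ᵥ (P *ᵥ Pi.single m 1)) (J ()) := by
        funext J
        rw [Matrix.mulVec_mulVec, Matrix.mulVec_single_one]
        rfl
      rw [h2, mem_invSys]
      exact h1
    · intro Y hY
      rw [mem_invSys]
      refine ⟨U, hU, fun g hg => ?_⟩
      funext J
      rw [chg]
      have h1 : ∑ J' : Fin 2 → n, (∏ s, tw χ ρ g (J' s) (J s)) • (Yᵀ * q) (J' 0) (J' 1) =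
          ((tw χ ρ g)ᵀ * (Yᵀ * q) * tw χ ρ g) (J 0) (J 1) := by
        rw [← Equiv.sum_comp (finTwoArrowEquiv n).symm, Fintype.sum_prod_type, Matrix.mul_apply,
          Finset.sum_comm]
        refine Finset.sum_congr rfl fun b _ => ?_
        rw [Matrix.mul_apply, Finset.sum_mul]
        refine Finset.sum_congr rfl fun a _ => ?_
        rw [Fin.prod_univ_two]
        change (tw χ ρ g a (J 0) * tw χ ρ g b (J 1)) • (Yᵀ * q) a b =
          (tw χ ρ g) a (J 0) * (Yᵀ * q) a b * tw χ ρ g b (J 1)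
        rw [smul_eq_mul]
        ring
      rw [h1]
      have h2 := congrArg Matrix.transpose (hUc g hg Y hY)
      rw [Matrix.transpose_mul, Matrix.transpose_mul] at h2
      rw [← Matrix.mul_assoc, h2, Matrix.mul_assoc, Matrix.mul_assoc, ← Matrix.mul_assoc _ q,
        tw_form h]
    · intro T _ _ x c hT hB
      exact block_mem (tw_cont h) (tw_form h) D (invSys (tw χ ρ)) U hU
        (fun g hg Y hY => hUc g hg Y hY) hB (fun f hf hfa => mem_invSys.2 hf)
  exact mem_invSys.1 key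

variable {m : Type} [Fintype m] [DecidableEq m]

/-- The form `F` in variables from `V` (indexed by `A`) and from `W` (indexed by `B`) is invariant under an
open subgroup. -/
def MixInv {Γ : Type} [Group Γ] [TopologicalSpace Γ] (r : Γ →* Matrix n n ℚ_[ℓ])
    (σ : Γ →* Matrix m m ℚ_[ℓ]) {A B : Type} [Fintype A] [DecidableEq A] [Fintype B] [DecidableEq B]
    (F : (A → n) → (B → m) → ℚ_[ℓ]) : Prop :=
  ∃ U : Subgroup Γ, IsOpen (U : Set Γ) ∧ ∀ g ∈ U, ∀ J I, ∑ J', ∑ I',
    ((∏ a, r g (J' a) (J a)) * ∏ b, σ g (I' b) (I b)) * F J' I' = F J I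

/-- The span of the products of invariant forms. -/
noncomputable def prodForms {Γ : Type} [Group Γ] [TopologicalSpace Γ] (r : Γ →* Matrix n n ℚ_[ℓ])
    (σ : Γ →* Matrix m m ℚ_[ℓ]) (A B : Type) [Fintype A] [DecidableEq A] [Fintype B]
    [DecidableEq B] : Submodule ℚ_[ℓ] ((A → n) → (B → m) → ℚ_[ℓ]) :=
  Submodule.span ℚ_[ℓ] {F | ∃ f g, InvForm r f ∧ InvForm σ g ∧ F = fun J I => f J * g I}

theorem chg_app {k : Type} [Field k] {A B : Type} [Fintype A] [DecidableEq A] [Fintype B]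
    [DecidableEq B] (R : Matrix n n k) (F : (A → n) → (B → m) → k) (J : A → n) (I : B → m) :
    chg R F J I = chg R (fun J => F J I) J := by
  rw [chg, chg, Finset.sum_apply]
  rfl

theorem mix_iff {k : Type} [Field k] {A B : Type} [Fintype A] [DecidableEq A] [Fintype B]
    [DecidableEq B] (R : Matrix n n k) (R' : Matrix m m k) (F : (A → n) → (B → m) → k)
    (J : A → n) (I : B → m) : ∑ J', ∑ I', ((∏ a, R (J' a) (J a)) * ∏ b, R' (I' b) (I b)) * F J' I' =
      chg R (fun J' => chg R' (F J') I) J := by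
  rw [chg]
  refine Finset.sum_congr rfl fun J' _ => ?_
  rw [chg, Finset.smul_sum]
  refine Finset.sum_congr rfl fun I' _ => ?_
  rw [smul_eq_mul, smul_eq_mul, mul_assoc]

/-- a mixed form which is invariant in the first variables is invariant in the second ones, too -/
theorem prod_of_left {Γ : Type} [Group Γ] [TopologicalSpace Γ] {r : Γ →* Matrix n n ℚ_[ℓ]}
    {σ : Γ →* Matrix m m ℚ_[ℓ]} {A B : Type} [Fintype A] [DecidableEq A] [Fintype B]
    [DecidableEq B] {F : (A → n) → (B → m) → ℚ_[ℓ]} (hF : MixInv r σ F)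
    (h : ∀ I, InvForm r fun J => F J I) : F ∈ prodForms r σ A B := by
  obtain ⟨U, hU, h1⟩ := hF
  obtain ⟨U', hU', h2⟩ := exists_fix r A
  have hP : ∀ u ∈ invSub r A, ∀ w ∈ invSub σ B,
      (fun (x : A → n) (y : B → m) => u x * w y) ∈ prodForms r σ A B := by
    intro u hu w hw
    refine Submodule.subset_span ?_
    exact ⟨u, w, hu, hw, rfl⟩
  refine tens (invSub r A) (invSub σ B) _ hP F h fun J => (show InvForm σ (F J) from ⟨U ⊓ U', hU.inter hU', fun g hg => ?_⟩)
  funext I
  have h3 := h1 g hg.1 J I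
  rw [mix_iff] at h3
  have h4 : (fun J' => chg (σ g) (F J') I) ∈ invSub r A := by
    have h5 : (fun J' => chg (σ g) (F J') I) =
        ∑ I' : B → m, (∏ s, σ g (I' s) (I s)) • fun J => F J I' := by
      funext J'
      rw [Finset.sum_apply, chg]
      rfl
    rw [h5]
    exact Submodule.sum_mem _ fun I' _ => Submodule.smul_mem _ _ (h I')
  rw [h2 g hg.2 _ h4] at h3
  exact h3

end

section kill

variable {k : Type} [Field k] {n m : Type} [Fintype n] [DecidableEq n] [Fintype m] [DecidableEq m]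
  {A B : Type} [Fintype A] [DecidableEq A] [Fintype B] [DecidableEq B]

/-- the value of a mixed form -/
def val2 (F : (A → n) → (B → m) → k) (x : A → n → k) (y : B → m → k) : k :=
  val (fun J => val (F J) y) x

theorem val_add' (f g : (A → n) → k) (x : A → n → k) : val (f + g) x = val f x + val g x := by
  simp only [ZD.val, Pi.add_apply, add_mul, Finset.sum_add_distrib]

theorem val_smul' (c : k) (f : (A → n) → k) (x : A → n → k) : val (c • f) x = c * val f x := by
  simp only [ZD.val, Pi.smul_apply, smul_eq_mul, Finset.mul_sum, mul_assoc]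

theorem val_sum' {ι : Type} (s : Finset ι) (f : ι → (A → n) → k) (x : A → n → k) :
    val (∑ i ∈ s, f i) x = ∑ i ∈ s, val (f i) x := by
  classical
  induction s using Finset.induction_on with
  | empty => simp [ZD.val]
  | insert i s hi ih => rw [Finset.sum_insert hi, Finset.sum_insert hi, val_add', ih]

theorem val2_chg (R : Matrix n n k) (R' : Matrix m m k) (F : (A → n) → (B → m) → k)
    (x : A → n → k) (y : B → m → k) :
    val2 (fun J I => chg R (fun J' => chg R' (F J') I) J) x y =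
      val2 F (fun a => R *ᵥ x a) (fun b => R' *ᵥ y b) := by
  unfold val2
  rw [← val_chg R]
  congr 1
  funext J
  change val (fun I => chg R (fun J' => chg R' (F J') I) J) y =
    chg R (fun J => val (F J) fun b => R' *ᵥ y b) J
  have h1 : (fun I => chg R (fun J' => chg R' (F J') I) J) =
      ∑ J' : A → n, (∏ s, R (J' s) (J s)) • chg R' (F J') := by
    funext I
    rw [Finset.sum_apply, chg]
    rfl
  rw [h1, val_sum', chg]
  refine Finset.sum_congr rfl fun J' _ => ?_
  rw [val_smul', val_chg, smul_eq_mul]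

theorem val2_der (X : Matrix n n k) (F : (A → n) → (B → m) → k) (x : A → n → k) (y : B → m → k) :
    ∑ a, val2 F (update x a (X *ᵥ x a)) y = val (der X fun J => val (F J) y) x := by
  rw [val_der]
  rfl

/-- a mixed form as a tensor on `V ⊕ W` -/
noncomputable def ten2 (F : (A → n) → (B → m) → k) {N : ℕ} (e : Fin N ≃ A ⊕ B) :
    Tensor k ((n → k) × (m → k)) N :=
  ∑ J : A → n, ∑ I : B → m, F J I •
    (MultilinearMap.mkPiAlgebra k (Fin N) k).compLinearMap
      (fun l => Sum.elim (fun a => LinearMap.proj (J a) ∘ₗ LinearMap.fst k (n → k) (m → k) ∘ₗ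
            LinearMap.fst k _ (Dual k ((n → k) × (m → k))))
          (fun b => LinearMap.proj (I b) ∘ₗ LinearMap.snd k (n → k) (m → k) ∘ₗ
            LinearMap.fst k _ (Dual k ((n → k) × (m → k)))) (e l))

theorem ten2_apply (F : (A → n) → (B → m) → k) {N : ℕ} (e : Fin N ≃ A ⊕ B)
    (v : Fin N → ((n → k) × (m → k)) × Dual k ((n → k) × (m → k))) :
    ten2 F e v = val2 F (fun a => (v (e.symm (Sum.inl a))).1.1)
      (fun b => (v (e.symm (Sum.inr b))).1.2) := by
  unfold ten2 val2 ZD.val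
  simp only [MultilinearMap.sum_apply, MultilinearMap.smul_apply,
    MultilinearMap.compLinearMap_apply, MultilinearMap.mkPiAlgebra_apply, smul_eq_mul]
  refine Finset.sum_congr rfl fun J _ => ?_
  rw [Finset.sum_mul]
  refine Finset.sum_congr rfl fun I _ => ?_
  rw [mul_assoc]
  congr 1
  rw [← Equiv.prod_comp e.symm, Fintype.prod_sum_type, mul_comm]
  congr 1
  · refine Finset.prod_congr rfl fun b _ => ?_
    rw [Equiv.apply_symm_apply]
    rfl
  · refine Finset.prod_congr rfl fun a _ => ?_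
    rw [Equiv.apply_symm_apply]
    rfl

end kill

section

variable {K : Type} [Field K] [NumberField K] {ℓ : ℕ} [hℓ : Fact ℓ.Prime] {n : Type}
    [Fintype n] [DecidableEq n] {q : Matrix n n ℚ_[ℓ]} {S : Finset ℕ} {χ : GK K →* ℚ_[ℓ]}
    {Pol : HeightOneSpectrum (𝓞 K) → ℤ[X]} {ρ : GK K →* Matrix n n ℚ_[ℓ]} {m : Type} [Fintype m]
    [DecidableEq m]

/-- matrices as a representation -/
noncomputable def matRep {Γ : Type} [Group Γ] (σ : Γ →* Matrix m m ℚ_[ℓ]) :
    Representation ℚ_[ℓ] Γ (m → ℚ_[ℓ]) :=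
  ((Matrix.toLinAlgEquiv' : Matrix m m ℚ_[ℓ] ≃ₐ[ℚ_[ℓ]] _).toAlgHom.toMonoidHom).comp σ

theorem matRep_apply {Γ : Type} [Group Γ] (σ : Γ →* Matrix m m ℚ_[ℓ]) (g : Γ) (x : m → ℚ_[ℓ]) :
    matRep σ g x = σ g *ᵥ x := rfl

/-- the Lie algebra kills the mixed forms -/
theorem kill_mix {σ : GK K →* Matrix m m ℚ_[ℓ]} {X : Matrix n n ℚ_[ℓ]}
    (hX : ext1 (Matrix.toLin' X) ∈ LT ((rep χ ρ).prod (matRep σ))) {A B : Type} [Fintype A]
    [DecidableEq A] [Fintype B] [DecidableEq B] {F : (A → n) → (B → m) → ℚ_[ℓ]}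
    (hF : MixInv (tw χ ρ) σ F) (I : B → m) : der X (fun J => F J I) = 0 := by
  obtain ⟨U, hU, hUF⟩ := hF
  let e : Fin (Fintype.card (A ⊕ B)) ≃ A ⊕ B := (Fintype.equivFin _).symm
  have hT : TateTensor ((rep χ ρ).prod (matRep σ)) (ten2 F e) := by
    refine ⟨U, finiteIndex_of_open hU, fun g hg v => ?_⟩
    rw [ten2_apply, ten2_apply]
    have h1 := val2_chg (tw χ ρ g) (σ g) F (fun a => (v (e.symm (Sum.inl a))).1.1)
      (fun b => (v (e.symm (Sum.inr b))).1.2)
    have h2 : (fun J I => chg (tw χ ρ g) (fun J' => chg (σ g) (F J') I) J) = F := by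
      funext J I
      rw [← mix_iff]
      exact hUF g hg J I
    rw [h2] at h1
    rw [h1]
    rfl
  have h1 := hX.2 _ _ hT
  have key : ∀ x y, ∑ a, val2 F (update x a (X *ᵥ x a)) y = 0 := by
    intro x y
    have h2 := h1 fun l => (Sum.elim (fun a => (x a, 0)) (fun b => (0, y b)) (e l), 0)
    rw [← Equiv.sum_comp e.symm, Fintype.sum_sum_type] at h2
    have hz : ∀ b : B, ten2 F e (update (fun l => ((Sum.elim (fun a => (x a, 0))
        (fun b => (0, y b)) (e l) : (n → ℚ_[ℓ]) × (m → ℚ_[ℓ])),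
          (0 : Dual ℚ_[ℓ] ((n → ℚ_[ℓ]) × (m → ℚ_[ℓ]))))) (e.symm (Sum.inr b))
        (lie (ext1 (Matrix.toLin' X)) ((Sum.elim (fun a => (x a, 0))
        (fun b => (0, y b)) (e (e.symm (Sum.inr b))) : (n → ℚ_[ℓ]) × (m → ℚ_[ℓ])), 0))) = 0 := by
      intro b
      rw [Equiv.apply_symm_apply]
      have h3 : lie (ext1 (Matrix.toLin' X)) ((Sum.elim (fun a => (x a, 0))
          (fun b => (0, y b)) (Sum.inr b) : (n → ℚ_[ℓ]) × (m → ℚ_[ℓ])),
          (0 : Dual ℚ_[ℓ] ((n → ℚ_[ℓ]) × (m → ℚ_[ℓ])))) = 0 := by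
        refine Prod.ext ?_ ?_
        · change ext1 (Matrix.toLin' X) (0, y b) = 0
          rw [ext1_apply, map_zero]
          rfl
        · refine LinearMap.ext fun z => ?_
          simp [lie, LinearMap.dualMap_apply]
      rw [h3]
      exact (ten2 F e).map_update_zero _ _
    rw [Finset.sum_eq_zero (fun b _ => hz b), add_zero] at h2
    rw [← h2]
    refine Finset.sum_congr rfl fun a _ => ?_
    rw [ten2_apply]
    congr 1
    · funext a'
      by_cases h3 : a' = a
      · rw [h3, update_self, update_self, Equiv.apply_symm_apply]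
        rfl
      · rw [update_of_ne h3, update_of_ne (fun h4 => h3 (Sum.inl_injective (e.symm.injective h4))),
          Equiv.apply_symm_apply]
        rfl
    · funext b
      rw [update_of_ne (fun h4 => Sum.inr_ne_inl (e.symm.injective h4)), Equiv.apply_symm_apply]
      rfl
  funext J₀
  have h2 := key (fun a => Pi.single (J₀ a) 1) (fun b => Pi.single (I b) 1)
  rw [val2_der, val_single] at h2
  have h3 : (fun J => val (F J) fun b => Pi.single (I b) 1) = fun J => F J I := by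
    funext J
    rw [val_single]
  rw [h3] at h2
  exact h2

/-- **Mixed forms.** -/
theorem mix_main (h : IsK3Type q S χ Pol ρ) (hss : Semisimple ρ) {σ : GK K →* Matrix m m ℚ_[ℓ]}
    (hX : ∀ X ∈ tateLie χ ρ, ext1 (Matrix.toLin' X) ∈ LT ((rep χ ρ).prod (matRep σ)))
    {A B : Type} [Fintype A] [DecidableEq A] [Fintype B] [DecidableEq B]
    {F : (A → n) → (B → m) → ℚ_[ℓ]} (hF : MixInv (tw χ ρ) σ F) :
    F ∈ prodForms (tw χ ρ) σ A B :=
  prod_of_left hF fun I => inv_of_der h hss _ fun X hXt => kill_mix (hX X hXt) hF I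

end

end Pool.Agent.H851.IN
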