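import Mathlib
import Pool.Agent.H851.IN.Form

/-!
# The definitions used in the statements
-/

set_option autoImplicit false
set_option linter.unusedSectionVars false

namespace Pool.Agent.H851.IN

open Matrix Finset Function Module Pool.Agent.Y114.RM
open NumberField IsDedekindDomain Polynomial
open Pool.Agent.H851.K3 Pool.Agent.H851.KT Pool.Agent.H851.TT Pool.Agent.H851.ZD
open Pool.Agent.NH56.HY (GK tw tw_apply chi_ne)

/-- `W` has a chain of subspaces, stable under a subgroup `Δ` of finite index, such that every piece is small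
(of dimension `e` with `2 e ^ 2 ≤ d (d - 1)`) or `Δ` acts on it through commuting operators. -/
def SmallPieces {Γ : Type} [Group Γ] {ℓ : ℕ} [Fact ℓ.Prime] {m : Type} [Fintype m] [DecidableEq m]
    (d : ℕ) (σ : Γ →* Matrix m m ℚ_[ℓ]) : Prop :=
  ∃ (Δ : Subgroup Γ) (N : ℕ) (F : ℕ → Submodule ℚ_[ℓ] (m → ℚ_[ℓ])), Δ.FiniteIndex ∧ F 0 = ⊥ ∧
    F N = ⊤ ∧ (∀ i, F i ≤ F (i + 1)) ∧ (∀ i, ∀ g ∈ Δ, ∀ x ∈ F i, σ g *ᵥ x ∈ F i) ∧
    ∀ i < N, 2 * (finrank ℚ_[ℓ] (F (i + 1)) - finrank ℚ_[ℓ] (F i)) ^ 2 ≤ d * (d - 1) ∨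
      ∀ g ∈ Δ, ∀ h ∈ Δ, ∀ x ∈ F (i + 1), (σ g * σ h - σ h * σ g) *ᵥ x ∈ F i

variable {K : Type} [Field K] [NumberField K] {ℓ : ℕ} [hℓ : Fact ℓ.Prime] {n : Type}
    [Fintype n] [DecidableEq n] {q : Matrix n n ℚ_[ℓ]} {S : Finset ℕ} {χ : GK K →* ℚ_[ℓ]}
    {Pol : HeightOneSpectrum (𝓞 K) → ℤ[X]} {ρ : GK K →* Matrix n n ℚ_[ℓ]} {m : Type} [Fintype m]
    [DecidableEq m]

/-- The Lie algebra of the Tate tensors of the direct sum of `V(1)` and `W` contains `(X, 0)`. -/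
def Splits (χ : GK K →* ℚ_[ℓ]) (ρ : GK K →* Matrix n n ℚ_[ℓ]) (σ : GK K →* Matrix m m ℚ_[ℓ]) :
    Prop :=
  ∀ X ∈ tateLie χ ρ, ext1 (Matrix.toLin' X) ∈ LT ((rep χ ρ).prod (matRep σ))

theorem splits_of_small (h : IsK3Type q S χ Pol ρ) (hss : Semisimple ρ) (hc : ScalarEnds q χ ρ)
    (hd3 : 3 ≤ finrank ℚ_[ℓ] (orth q (tate χ ρ))) (hd4 : finrank ℚ_[ℓ] (orth q (tate χ ρ)) ≠ 4)
    {σ : GK K →* Matrix m m ℚ_[ℓ]} (hσ : SmallPieces (finrank ℚ_[ℓ] (orth q (tate χ ρ))) σ) :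
    Splits χ ρ σ := by
  obtain ⟨Δ, N, F, hΔ, h0, hN, hle, hst, hp⟩ := hσ
  intro X hX
  refine split h hss hc hd3 hd4 (matRep σ) hΔ N F h0 hN hle hst (fun i hi => ?_) hX
  rcases hp i hi with h1 | h1
  · exact Or.inl h1
  · refine Or.inr (Or.inl fun g hg g' hg' x hx => ?_)
    have h2 := h1 g hg g' hg' x hx
    rw [Matrix.sub_mulVec, ← Matrix.mulVec_mulVec, ← Matrix.mulVec_mulVec] at h2
    exact h2

end Pool.Agent.H851.IN
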